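import Pool.Agent.MP_fe3998_an.UB.LemA

/-! Cutting a family of vectors to a set of points of the circle. -/

set_option autoImplicit false

namespace Pool.Agent.MP_fe3998_an.UB

open Finset Complex

noncomputable section

variable {Q : ℕ} [NeZero Q] {H : Type*} [NormedAddCommGroup H] [InnerProductSpace ℂ H]
  {T : H →L[ℂ] H} {c : ℝ} {ι : Type} [Fintype ι] {a b : ℕ} {X : ℕ → ι → ZMod Q → ℂ} {ξ : ι → H}

/-- translation -/
def tr (θ : ZMod Q) : (ZMod Q → ℂ) →ₗ[ℂ] (ZMod Q → ℂ) := LinearMap.funLeft ℂ ℂ (· - θ)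

omit [NeZero Q] in
theorem tr_apply (θ : ZMod Q) (f : ZMod Q → ℂ) (z : ZMod Q) : tr θ f z = f (z - θ) := rfl

theorem tr_mem {f : ZMod Q → ℂ} {lo hi : ℤ} (hf : f ∈ Sp Q lo hi) (θ : ZMod Q) :
    tr θ f ∈ Sp Q lo hi :=
  Sp_map (tr θ) _ (fun n h1 h2 => by
    rw [show tr θ (ch n) = ch (-n) θ • ch n from funext fun z => ch_sub n z θ]
    exact Submodule.smul_mem _ _ (ch_mem h1 h2)) hf

theorem mass_tr {u : ZMod Q → ℂ} {hi : ℤ} {M k : ℕ} {μ : ℝ} (hu : u ∈ Sp Q 0 hi) (h : hi < M)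
    (hM : M ≤ Q) (hμ : ∀ i < M, ∑ j, ‖(T ^ (k + i)) (ξ j)‖ ^ 2 ≤ μ ^ 2) :
    ∑ θ, ∑ j, ‖(T ^ k) (op Q T (tr θ u) (ξ j))‖ ^ 2 ≤ (∑ x, ‖u x‖ ^ 2) * μ ^ 2 := by
  obtain ⟨co, hc⟩ := expand hu (M := M) (by omega)
  have e : ∀ θ x, (T ^ k) (op Q T (tr θ u) x) =
      ∑ i ∈ range M, ch (0 + -1 * i) θ • (co i • (T ^ (k + i)) x) := fun θ x => by
    have : tr θ u = ∑ i ∈ range M, (ch (0 + -1 * i) θ * co i) • ch i := by
      funext z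
      simp only [tr_apply, hc, ch_sub, Finset.sum_apply, Pi.smul_apply, smul_eq_mul, zero_add,
        one_mul, neg_mul]
      exact sum_congr rfl fun i _ => by ring
    rw [this, map_sum, _root_.sum_apply, map_sum]
    refine sum_congr rfl fun i hi => ?_
    have := mem_range.1 hi
    rw [map_smul, op_ch (by omega) (by omega), _root_.smul_apply, map_smul, mul_smul, pow_add]
    rfl
  simp only [e, hc]
  rw [sum_comm, sum_congr rfl fun j _ => pars hM 0 (-1) (Or.inr rfl) _, pars hM 0 1 (Or.inl rfl),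
    ← mul_sum, mul_assoc, sum_comm, sum_mul]
  refine mul_le_mul_of_nonneg_left (sum_le_sum fun i hi => ?_) (Nat.cast_nonneg _)
  simp only [norm_smul, mul_pow, ← mul_sum]
  exact mul_le_mul_of_nonneg_left (hμ i (mem_range.1 hi)) (sq_nonneg _)

theorem d2_mem (n : ℕ) : dk n ^ 2 ∈ Sp Q 0 (2 * n - 2) := by
  rw [sq]; exact Sp_mono (Sp_mul (dk_mem n) (dk_mem n)) (by omega) (by omega)

theorem d4_mem (n : ℕ) : dk n ^ 4 ∈ Sp Q 0 (4 * n - 4) := by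
  rw [show 4 = 2 + 2 from rfl, pow_add]
  exact Sp_mono (Sp_mul (d2_mem n) (d2_mem n)) (by omega) (by omega)

/-- total mass of the kernel -/
def s8 (Q : ℕ) [NeZero Q] (n : ℕ) : ℝ := ∑ x : ZMod Q, ‖dk n x‖ ^ 8

theorem s8_ge {n : ℕ} (hn : 0 < n) (hQ : 4 * n ≤ Q) : Q * n ^ 7 ≤ 4 * s8 Q n := by
  have := point_le (d4_mem (Q := Q) n) (M := 4 * n) (by omega) hQ 0
  simp only [Pi.pow_apply, dk_at, norm_pow, Complex.norm_natCast, ← pow_mul] at this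
  have p : (0 : ℝ) < n := by exact_mod_cast hn
  refine le_of_mul_le_mul_left ?_ p
  push_cast at this
  rw [s8]; linarith

theorem s8_pos {n : ℕ} (hn : 0 < n) (hQ : 4 * n ≤ Q) : 0 < s8 Q n := by
  have := s8_ge hn hQ
  have : (0 : ℝ) < Q * n ^ 7 := mul_pos Qpos (by positivity)
  linarith

theorem s4_le {n : ℕ} (hQ : n ≤ Q) : ∑ x : ZMod Q, ‖dk n x‖ ^ 4 ≤ Q * n ^ 3 := by
  refine (sum_le_sum (g := fun x => n ^ 2 * ‖dk n x‖ ^ 2) fun x _ => ?_).trans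
    (le_of_eq (by rw [← mul_sum, dk_sq hQ]; ring))
  rw [show 4 = 2 + 2 from rfl, pow_add]
  exact mul_le_mul_of_nonneg_right (pow_le_pow_left₀ (norm_nonneg _) (dk_le n x) 2) (sq_nonneg _)

theorem s_mom {n : ℕ} (hQ : n ≤ Q) (k : ℕ) :
    ∑ x : ZMod Q, ‖dk n x‖ ^ (k + 4) * ‖1 - ch 1 x‖ ^ 2 ≤ 4 * Q * n ^ (k + 1) := by
  refine (sum_le_sum (g := fun x => n ^ k * 2 ^ 2 * ‖dk n x‖ ^ 2) fun x _ => ?_).trans
    (le_of_eq (by rw [← mul_sum, dk_sq hQ]; ring))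
  refine le_trans (le_of_eq (by ring)) (mul_le_mul_of_nonneg_right (mul_le_mul
    (pow_le_pow_left₀ (norm_nonneg _) (dk_le n x) k)
    (pow_le_pow_left₀ (by positivity) (dk_diff n x) 2) (by positivity) (by positivity))
    (sq_nonneg ‖dk n x‖))

/-- the smoothed indicator of `A` at the scale `n` -/
def chiR (A : Finset (ZMod Q)) (n : ℕ) (z : ZMod Q) : ℝ := (∑ θ ∈ A, ‖dk n (z - θ)‖ ^ 8) / s8 Q n

/-- the same with complex values -/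
def chi (A : Finset (ZMod Q)) (n : ℕ) : ZMod Q → ℂ := fun z => chiR A n z

theorem chiR_nonneg (A : Finset (ZMod Q)) (n : ℕ) (z : ZMod Q) : 0 ≤ chiR A n z := by
  unfold chiR s8; positivity

theorem chiR_compl (A : Finset (ZMod Q)) {n : ℕ} (hn : 0 < n) (hQ : 4 * n ≤ Q) (z : ZMod Q) :
    chiR A n z + chiR Aᶜ n z = 1 := by
  rw [chiR, chiR, ← add_div, sum_add_sum_compl, sum_tr' (fun x => ‖dk n x‖ ^ 8)]
  exact div_self (s8_pos hn hQ).ne'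

theorem chi_eq (A : Finset (ZMod Q)) (n : ℕ) (k : ℤ) : chi A n =
    ∑ θ, ((((√(s8 Q n))⁻¹ : ℝ) : ℂ) • star (ch k * tr θ (dk n ^ 4))) *
      (if θ ∈ A then (((√(s8 Q n))⁻¹ : ℝ) : ℂ) • (ch k * tr θ (dk n ^ 4)) else 0) := by
  funext z
  have p : 0 ≤ s8 Q n := by unfold s8; positivity
  simp only [mul_ite, mul_zero, Fintype.sum_ite_mem]
  simp only [Finset.sum_apply, chi, chiR, sum_div, ofReal_sum]
  refine sum_congr rfl fun θ _ => ?_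
  rw [smul_mul_smul_comm, Pi.smul_apply, Pi.mul_apply, Pi.star_apply, star_def, conj_mul',
    Pi.mul_apply, norm_mul, norm_ch, one_mul, tr_apply, Pi.pow_apply, norm_pow, ← ofReal_mul,
    ← mul_inv, Real.mul_self_sqrt p, smul_eq_mul]
  push_cast; ring

theorem chi_mem (A : Finset (ZMod Q)) (n : ℕ) : chi A n ∈ Sp Q (-(4 * n)) (4 * n) := by
  rw [chi_eq A n 0]
  refine Submodule.sum_mem _ fun θ _ => ?_
  have := Sp_mul (ch_mem (Q := Q) (le_refl 0) le_rfl) (tr_mem (d4_mem n) θ)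
  split_ifs
  · exact Sp_mono (Sp_mul (Submodule.smul_mem _ _ (Sp_star this)) (Submodule.smul_mem _ _ this))
      (by omega) (by omega)
  · simp

theorem loc_chi {K a' n k : ℕ} {γ μ : ℝ} (hP : PB Q T K γ) (hX : Cls a b X)
    (hQ : 256 * 2 ^ b ≤ Q) (ha : a < a') (hb : a' + K ≤ b) (hn : 0 < n)
    (hk : k + 4 * n ≤ 8 * 2 ^ a') (A : Finset (ZMod Q)) (h0 : 0 ≤ μ)
    (hμ : ∀ k' ≤ 2 ^ (a' + K), ∑ θ ∈ A, ∑ j,
      ‖(T ^ k') ((T ^ k) (op Q T (tr θ (dk n ^ 4)) (ξ j)))‖ ^ 2 ≤ s8 Q n * μ ^ 2) :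
    ‖Yv T X ξ (chi A n) a' (a' + K)‖ ≤ γ * μ := by
  have z1 := two_le' (by omega : a + 1 ≤ a')
  have z2 := two_le' (by omega : a' ≤ b)
  have p := s8_pos hn (by omega : 4 * n ≤ Q)
  have m : ∀ θ : ZMod Q, ch k * tr θ (dk n ^ 4) ∈ Sp Q 0 (8 * 2 ^ a' : ℕ) := fun θ =>
    Sp_mono (Sp_mul (ch_mem (le_refl (k : ℤ)) le_rfl) (tr_mem (d4_mem n) θ)) (by omega) (by omega)
  have nr : ‖(((√(s8 Q n))⁻¹ : ℝ) : ℂ)‖ ^ 2 = (s8 Q n)⁻¹ := by
    rw [norm_real, Real.norm_eq_abs, sq_abs, inv_pow, Real.sq_sqrt p.le]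
  rw [chi_eq A n k]
  refine loc (s := 8 * 2 ^ a') hP hX hQ ha.le hb (by omega) _ _ (fun θ => ?_)
    (fun θ => Submodule.smul_mem _ _ (Sp_mono (Sp_star (m θ)) le_rfl (by omega))) (fun z => ?_) h0
    fun k' hk' => ?_
  · split_ifs
    exacts [Submodule.smul_mem _ _ (m θ), zero_mem _]
  · simp only [Pi.smul_apply, norm_smul, mul_pow, nr, Pi.star_apply, norm_star, Pi.mul_apply,
      norm_mul, norm_ch, one_mul, tr_apply, Pi.pow_apply, norm_pow, ← mul_sum, ← pow_mul]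
    rw [sum_tr' (fun x => ‖dk n x‖ ^ (4 * 2))]
    exact (inv_mul_cancel₀ p.ne').le
  · refine le_trans (le_of_eq ?_) ((inv_mul_le_iff₀ p).2 (hμ k' hk'))
    rw [mul_sum, ← Fintype.sum_ite_mem A]
    refine sum_congr rfl fun θ _ => ?_
    split_ifs
    · rw [mul_sum]
      refine sum_congr rfl fun j _ => ?_
      rw [map_smul, _root_.smul_apply, map_smul, norm_smul, mul_pow, nr,
        op_mul (ch_mem (by omega) (le_refl (k : ℤ))) (tr_mem (d4_mem n) θ) (by omega),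
        op_ch (by omega) (by omega)]
      rfl
    · simp

theorem cut_gain (hT : ∀ k, ‖T ^ k‖ ≤ c) (hc : 0 < c) {K L t t4 : ℕ} {γ γL : ℝ} (hγ : 0 < γ)
    (hP : PB Q T K γ) (hL : PB Q T L γL) (hX : Cls a b X) (hQ : 256 * 2 ^ b ≤ Q) (ha : a < t)
    (h4 : t + L ≤ t4) (hb : t4 + K ≤ b) (hK : 3 ≤ K)
    (hμ : ∀ k ≤ 2 ^ b, ∑ j, ‖(T ^ k) (ξ j)‖ ^ 2 ≤ 1 ^ 2) (A : Finset (ZMod Q)) :
    ‖Yv T X ξ (chi A (2 ^ t)) t (t + L)‖ ≤
      γL * (1 - (‖Yv T X ξ (chi Aᶜ (2 ^ t)) t4 (t4 + K)‖ / (γ * c)) ^ 2 / 2) := by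
  have z1 := two_le' (by omega : t ≤ t + L)
  have z2 := two_le' h4
  have z3 := two_le' (by omega : t4 + 3 ≤ b)
  rw [pow_add 2 t4] at z3
  have hn : 0 < 2 ^ t := by positivity
  have p := s8_pos hn (by omega : 4 * 2 ^ t ≤ Q)
  set y := ‖Yv T X ξ (chi Aᶜ (2 ^ t)) t4 (t4 + K)‖ / (γ * c) with hy
  have key : ∀ k ≤ 2 ^ (t + L), ∑ θ ∈ A, ∑ j,
      ‖(T ^ k) (op Q T (tr θ (dk (2 ^ t) ^ 4)) (ξ j))‖ ^ 2 ≤ s8 Q (2 ^ t) * (1 - y ^ 2) := by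
    intro k hk
    have m1 := mass_tr (T := T) (ξ := ξ) (k := k) (d4_mem (Q := Q) (2 ^ t)) (M := 4 * 2 ^ t)
      (by omega) (by omega) fun i hi => hμ _ (by omega)
    simp only [Pi.pow_apply, norm_pow, ← pow_mul] at m1
    rw [← sum_add_sum_compl A] at m1
    set m := ∑ θ ∈ Aᶜ, ∑ j, ‖(T ^ k) (op Q T (tr θ (dk (2 ^ t) ^ 4)) (ξ j))‖ ^ 2 with hm
    have m0 : 0 ≤ m / s8 Q (2 ^ t) :=
      div_nonneg (sum_nonneg fun _ _ => sum_nonneg fun _ _ => sq_nonneg _) p.le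
    have m2 := loc_chi (ξ := ξ) (k := k) (μ := c * √(m / s8 Q (2 ^ t))) hP hX hQ (by omega) hb hn
      (by omega) Aᶜ (mul_nonneg hc.le (Real.sqrt_nonneg _)) fun k' _ => by
        rw [mul_pow, Real.sq_sqrt m0, mul_left_comm, mul_div_cancel₀ _ p.ne', hm, mul_sum]
        refine sum_le_sum fun θ _ => ?_
        rw [mul_sum]
        refine sum_le_sum fun j _ => ?_
        rw [← mul_pow]
        exact pow_le_pow_left₀ (norm_nonneg _) ((T ^ k').le_of_opNorm_le (hT k') _) 2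
    rw [← mul_assoc, mul_comm (γ * c), ← div_le_iff₀ (mul_pos hγ hc), ← hy] at m2
    have m3 := pow_le_pow_left₀ (div_nonneg (norm_nonneg _) (mul_pos hγ hc).le) m2 2
    rw [Real.sq_sqrt m0, ← hy, le_div_iff₀ p] at m3
    have : ∑ x : ZMod Q, ‖dk (2 ^ t) x‖ ^ (4 * 2) = s8 Q (2 ^ t) := rfl
    rw [this] at m1
    linarith
  have y1 : 0 ≤ 1 - y ^ 2 := nonneg_of_mul_nonneg_right
    ((sum_nonneg fun _ _ => sum_nonneg fun _ _ => sq_nonneg _).trans (key 0 (Nat.zero_le _))) p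
  exact loc_chi (k := 0) hL hX hQ ha (by omega) hn (by omega) A (by linarith) fun k hk =>
    (key k hk).trans (mul_le_mul_of_nonneg_left (by nlinarith [sq_nonneg (y ^ 2)]) p.le)

/-- the points near which the row of size `N` is active at the scale `n` -/
def act (N : ZMod Q → ℝ) (n : ℕ) (τ : ℝ) : Finset (ZMod Q) :=
  univ.filter fun θ => τ * n ^ 3 * Q < ∑ z, ‖dk n (z - θ)‖ ^ 4 * N z

theorem cut_small [CompleteSpace H] (hT : ∀ k, ‖T ^ k‖ ≤ c) {L t : ℕ} {τ B : ℝ} (hX : Cls a b X)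
    (hQ : 256 * 2 ^ b ≤ Q) (ha : a ≤ t) (hb : t + L ≤ b) (hτ : 0 ≤ τ) (hB : 0 ≤ B)
    (hτB : 512 * 2 ^ L * τ ≤ B ^ 2) (hμ : ∀ k ≤ 2 ^ b, ∑ j, ‖(T ^ k) (ξ j)‖ ^ 2 ≤ 1 ^ 2) :
    ‖Yv T X ξ (chi (act (fun z => ∑ j, ‖(X (t + L) j - X t j) z‖ ^ 2) (2 ^ t) τ)ᶜ (2 ^ t))
      t (t + L)‖ ≤ B * c * (16 * 2 ^ L) * 1 := by
  have z1 := two_le' (by omega : t ≤ t + L)
  have z2 := two_le' hb
  have z3 := two_le ha
  have z4 : (2 : ℤ) ^ t ≤ 2 ^ (t + L) := two_le (by omega)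
  have z5 : (0 : ℤ) < 2 ^ a := by positivity
  have hn : 0 < 2 ^ t := by positivity
  have hc : 0 ≤ c := (norm_nonneg _).trans (hT 0)
  have p := s8_pos hn (by omega : 4 * 2 ^ t ≤ Q)
  have sp := fun j => hX.sp t (t + L) j ha (by omega) hb
  refine lemA hT _ ξ (n := 2 ^ t) (M := 127 * 2 ^ (t + L)) hn (by omega)
    (fun j => Sp_mono (Sp_mul (chi_mem _ _) (sp j)) (by push_cast; omega) (by push_cast; omega))
    (fun z => ?_) (fun k hk => hμ k (by omega)) ?_ (by positivity)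
  · set N : ZMod Q → ℝ := fun z => ∑ j, ‖(X (t + L) j - X t j) z‖ ^ 2 with hN
    set A := act N (2 ^ t) τ with hA
    have N0 : 0 ≤ N z := sum_nonneg fun _ _ => sq_nonneg _
    have c0 := chiR_nonneg Aᶜ (2 ^ t) z
    have c1 := chiR_nonneg A (2 ^ t) z
    have c2 := chiR_compl A hn (by omega) z
    have e : ∑ j, ‖(chi Aᶜ (2 ^ t) * (X (t + L) j - X t j)) z‖ ^ 2 =
        chiR Aᶜ (2 ^ t) z ^ 2 * N z := by
      simp only [Pi.mul_apply, norm_mul, mul_pow, chi, norm_real, Real.norm_eq_abs, sq_abs, hN,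
        mul_sum]
    have k1 : ∀ θ ∈ Aᶜ, ‖dk (2 ^ t) (z - θ)‖ ^ 4 * N z ≤
        128 * 2 ^ (t + L) * (τ * (2 ^ t) ^ 3) := fun θ hθ => by
      have h1 : ∑ x, ‖dk (2 ^ t) (x - θ)‖ ^ 4 * N x ≤ τ * (2 ^ t : ℕ) ^ 3 * Q := by
        simpa [hA, act] using hθ
      have h2 := sum_le_sum fun j (_ : j ∈ univ) => point_le (M := 128 * 2 ^ (t + L))
        (Sp_mono (Sp_mul (tr_mem (d2_mem (2 ^ t)) θ) (sp j)) (by omega : (0 : ℤ) ≤ _) le_rfl)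
        (by push_cast; omega) (by omega) z
      simp only [Pi.mul_apply, norm_mul, mul_pow, tr_apply, Pi.pow_apply, norm_pow, ← pow_mul,
        ← mul_sum] at h2
      rw [sum_comm] at h2
      simp only [← mul_sum] at h2
      refine le_of_mul_le_mul_left (h2.trans ((mul_le_mul_of_nonneg_left h1
        (Nat.cast_nonneg _)).trans (le_of_eq ?_))) Qpos
      push_cast; ring
    have k2 : chiR Aᶜ (2 ^ t) z * N z * s8 Q (2 ^ t) ≤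
        Q * (2 ^ t) ^ 3 * (128 * 2 ^ (t + L) * (τ * (2 ^ t) ^ 3)) := by
      rw [mul_right_comm, chiR, div_mul_cancel₀ _ p.ne', sum_mul]
      refine (sum_le_sum (g := fun θ => ‖dk (2 ^ t) (z - θ)‖ ^ 4 *
        (128 * 2 ^ (t + L) * (τ * (2 ^ t) ^ 3))) fun θ hθ => ?_).trans ?_
      · exact le_trans (le_of_eq (by ring)) (mul_le_mul_of_nonneg_left (k1 θ hθ) (by positivity))
      · rw [← sum_mul]
        refine mul_le_mul_of_nonneg_right ((sum_le_univ_sum_of_nonneg fun _ => by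
          positivity).trans ?_) (by positivity)
        rw [sum_tr' (fun x => ‖dk (2 ^ t) x‖ ^ 4)]
        simpa using s4_le (Q := Q) (n := 2 ^ t) (by omega)
    have k3 := s8_ge hn (by omega : 4 * 2 ^ t ≤ Q)
    push_cast at k3
    have k4 : chiR Aᶜ (2 ^ t) z * N z ≤ 512 * 2 ^ L * τ := by
      refine le_of_mul_le_mul_right (k2.trans ?_) p
      refine le_trans (le_of_eq ?_) ((mul_le_mul_of_nonneg_left k3
        (by positivity : 0 ≤ 128 * 2 ^ L * τ)).trans (le_of_eq ?_)) <;> ring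
    rw [e]
    nlinarith [mul_nonneg c0 N0, mul_nonneg (mul_nonneg c0 N0) c1]
  · have : (1 : ℝ) ≤ 2 ^ L := one_le_pow₀ one_le_two
    have h2 : (1 : ℝ) ≤ 2 ^ (t + L) := one_le_pow₀ one_le_two
    push_cast
    have h3 : (16 * 2 ^ L : ℝ) ^ 2 * 2 ^ t = 256 * (2 ^ L * 2 ^ (t + L)) := by ring
    nlinarith

theorem car_block (N : ZMod Q → ℝ) (h0 : ∀ z, 0 ≤ N z) (h4 : ∀ z, N z ≤ 2 ^ 2) {n r : ℕ} {τ : ℝ}
    (hn : 0 < n) (hQ : 4 * n ≤ Q) (hr : r ≤ Q) (z : ZMod Q) :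
    τ * ∑ θ, ‖dk r θ‖ ^ 2 * chiR (act N n τ) n (z - θ) ≤
      2 * ∑ x, ‖dk r (x - z)‖ ^ 2 * N x + 320 * Q * r ^ 3 / n ^ 2 := by
  have p := s8_pos hn hQ
  have pn : (0 : ℝ) < n := by exact_mod_cast hn
  have pQ := Qpos (Q := Q)
  set β := ∑ x, ‖dk r (x - z)‖ ^ 2 * N x with hβ
  have β0 : 0 ≤ β := sum_nonneg fun x _ => mul_nonneg (sq_nonneg _) (h0 x)
  have ng : ∀ v : ZMod Q, ‖dk r (-v)‖ = ‖dk r v‖ := fun v => by
    rw [← norm_conj, dk, Finset.sum_apply, Finset.sum_apply, map_sum]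
    refine congrArg norm (sum_congr rfl fun i _ => ?_)
    rw [conj_ch, ← zero_sub v, ch_sub, ch_at, neg_neg, mul_one]
  have g1 : ∀ φ ψ : ZMod Q, ∑ θ, N (θ + φ) * ‖dk r (z - θ - ψ)‖ ^ 2 ≤
      2 * β + 16 * Q * r ^ 3 * (‖1 - ch 1 φ‖ ^ 2 + ‖1 - ch 1 ψ‖ ^ 2) := fun φ ψ => by
    have a1 := dk_shift hr (φ - ψ)
    rw [← sum_tr _ z] at a1
    have a2 : ‖1 - ch 1 (φ - ψ)‖ ≤ ‖1 - ch 1 φ‖ + ‖1 - ch 1 ψ‖ := by
      have : 1 - ch 1 (φ - ψ) = ch (-1) ψ * ((1 - ch 1 φ) - (1 - ch 1 ψ)) := by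
        rw [ch_sub, sub_sub_sub_cancel_left, mul_sub, ch_mul]; simp [ch_zero]
      rw [this, norm_mul, norm_ch, one_mul]
      exact norm_sub_le _ _
    have a3 : ‖1 - ch 1 (φ - ψ)‖ ^ 2 ≤ 2 * (‖1 - ch 1 φ‖ ^ 2 + ‖1 - ch 1 ψ‖ ^ 2) := by
      nlinarith [pow_le_pow_left₀ (norm_nonneg _) a2 2, sq_nonneg (‖1 - ch 1 φ‖ - ‖1 - ch 1 ψ‖)]
    rw [← sum_tr _ φ]
    refine (sum_le_sum (g := fun x => 2 * (‖dk r (x - z)‖ ^ 2 * N x) +
      8 * ‖dk r (x - z - (φ - ψ)) - dk r (x - z)‖ ^ 2) fun x _ => ?_).trans ?_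
    · rw [sub_add_cancel, ← ng, show -(z - (x - φ) - ψ) = x - z - (φ - ψ) by ring]
      have b1 := pow_le_pow_left₀ (norm_nonneg _)
        (norm_le_norm_add_norm_sub' (dk r (x - z - (φ - ψ))) (dk r (x - z))) 2
      generalize ‖dk r (x - z - (φ - ψ)) - dk r (x - z)‖ = u at *
      nlinarith [mul_le_mul_of_nonneg_left b1 (h0 x), mul_le_mul_of_nonneg_right (h4 x) (sq_nonneg u),
        mul_nonneg (h0 x) (sq_nonneg (‖dk r (x - z)‖ - u))]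
    · rw [sum_add_distrib, ← mul_sum, ← mul_sum]
      nlinarith [mul_le_mul_of_nonneg_left a3 (by positivity : (0 : ℝ) ≤ Q * r ^ 3)]
  have g2 : ∑ θ, (∑ x, ‖dk n (x - θ)‖ ^ 4 * N x) *
      (∑ θ', ‖dk r θ'‖ ^ 2 * ‖dk n (z - θ' - θ)‖ ^ 8) = ∑ φ, ∑ ψ, ‖dk n φ‖ ^ 4 * ‖dk n ψ‖ ^ 8 *
        ∑ θ, N (θ + φ) * ‖dk r (z - θ - ψ)‖ ^ 2 := by
    have a1 : ∀ θ, ∑ x, ‖dk n (x - θ)‖ ^ 4 * N x = ∑ φ, ‖dk n φ‖ ^ 4 * N (θ + φ) := fun θ => by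
      rw [← sum_tr (fun φ => ‖dk n φ‖ ^ 4 * N (θ + φ)) θ]; simp
    have a2 : ∀ θ, ∑ θ', ‖dk r θ'‖ ^ 2 * ‖dk n (z - θ' - θ)‖ ^ 8 =
        ∑ ψ, ‖dk r (z - θ - ψ)‖ ^ 2 * ‖dk n ψ‖ ^ 8 := fun θ => by
      rw [← sum_tr' (fun ψ => ‖dk r (z - θ - ψ)‖ ^ 2 * ‖dk n ψ‖ ^ 8) (z - θ)]
      exact sum_congr rfl fun θ' _ => by rw [sub_sub_cancel, sub_right_comm]
    simp only [a1, a2, sum_mul_sum]
    simp only [mul_sum]
    rw [sum_comm]
    refine sum_congr rfl fun φ _ => ?_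
    rw [sum_comm]
    exact sum_congr rfl fun ψ _ => sum_congr rfl fun θ _ => by ring
  have g3 : (τ * ∑ θ, ‖dk r θ‖ ^ 2 * chiR (act N n τ) n (z - θ)) * (n ^ 3 * Q * s8 Q n) ≤
      ∑ θ, (∑ x, ‖dk n (x - θ)‖ ^ 4 * N x) * (∑ θ', ‖dk r θ'‖ ^ 2 * ‖dk n (z - θ' - θ)‖ ^ 8) := by
    refine le_trans (le_of_eq ?_) ((sum_le_sum (s := act N n τ) (f := fun θ => τ * n ^ 3 * Q *
      (∑ θ', ‖dk r θ'‖ ^ 2 * ‖dk n (z - θ' - θ)‖ ^ 8)) fun θ hθ => mul_le_mul_of_nonneg_right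
        (mem_filter.1 hθ).2.le (by positivity)).trans (sum_le_univ_sum_of_nonneg fun θ =>
        mul_nonneg (sum_nonneg fun x _ => mul_nonneg (by positivity) (h0 x)) (by positivity)))
    rw [← mul_sum, sum_comm]
    simp only [chiR, ← mul_sum, ← mul_div_assoc, ← sum_div]
    field_simp
  have g4 := s4_le (Q := Q) (n := n) (by omega)
  have g5 := s_mom (Q := Q) (n := n) (by omega) 0
  have g6 := s_mom (Q := Q) (n := n) (by omega) 4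
  have g7 := s8_ge hn hQ
  have g8 := (g3.trans g2.le).trans (sum_le_sum fun φ _ => sum_le_sum fun ψ _ =>
    mul_le_mul_of_nonneg_left (g1 φ ψ) (by positivity))
  have g9 : ∑ φ : ZMod Q, ∑ ψ : ZMod Q, ‖dk n φ‖ ^ 4 * ‖dk n ψ‖ ^ 8 *
      (2 * β + 16 * Q * r ^ 3 * (‖1 - ch 1 φ‖ ^ 2 + ‖1 - ch 1 ψ‖ ^ 2)) =
      2 * β * ((∑ x : ZMod Q, ‖dk n x‖ ^ 4) * s8 Q n) + 16 * Q * r ^ 3 *
        ((∑ x : ZMod Q, ‖dk n x‖ ^ (0 + 4) * ‖1 - ch 1 x‖ ^ 2) * s8 Q n +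
        (∑ x : ZMod Q, ‖dk n x‖ ^ 4) * ∑ x : ZMod Q, ‖dk n x‖ ^ (4 + 4) * ‖1 - ch 1 x‖ ^ 2) := by
    simp only [s8, sum_mul_sum]
    simp only [mul_sum, mul_add, ← sum_add_distrib]
    exact sum_congr rfl fun φ _ => sum_congr rfl fun ψ _ => by ring
  have g10 := mul_le_mul g4 g6 (by positivity) (by positivity)
  refine le_of_mul_le_mul_right ((g8.trans g9.le).trans ?_) (by positivity)
  have e : (2 * β + 320 * Q * r ^ 3 / n ^ 2) * (n ^ 3 * Q * s8 Q n) = 2 * β * (Q * n ^ 3 * s8 Q n) +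
      16 * Q * r ^ 3 * (4 * Q * n ^ (0 + 1) * s8 Q n + 4 * Q * n * (4 * s8 Q n)) := by
    field_simp; ring
  rw [e]
  refine add_le_add (mul_le_mul_of_nonneg_left (mul_le_mul_of_nonneg_right g4 p.le)
    (by positivity)) (mul_le_mul_of_nonneg_left (add_le_add (mul_le_mul_of_nonneg_right g5 p.le)
    (g10.trans (le_trans (le_of_eq (by ring)) (mul_le_mul_of_nonneg_left g7 (by positivity)))))
    (by positivity))

end

end Pool.Agent.MP_fe3998_an.UB
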