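import Mathlib.Analysis.SpecialFunctions.Complex.CircleAddChar
import Mathlib.Analysis.InnerProductSpace.Adjoint
import Mathlib.Algebra.Order.Chebyshev
import Mathlib.Tactic

/-! Fourier analysis on a finite cyclic group. -/

set_option autoImplicit false

namespace Pool.Agent.MP_fe3998_an.UB

open Finset Complex

noncomputable section

variable {Q : ℕ} [NeZero Q]

/-- the character of frequency `k` -/
def ch (k : ℤ) : ZMod Q → ℂ := fun x => ZMod.stdAddChar (x * (k : ZMod Q))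

theorem ch_add (m n : ℤ) : (ch (m + n) : ZMod Q → ℂ) = ch m * ch n := by
  funext x; simp [ch, mul_add, AddChar.map_add_eq_mul]

theorem ch_zero : (ch 0 : ZMod Q → ℂ) = 1 := by funext x; simp [ch]

theorem norm_ch (k : ℤ) (x : ZMod Q) : ‖ch k x‖ = 1 := by
  rw [ch, ZMod.stdAddChar_apply]; exact Circle.norm_coe _

theorem conj_ch (k : ℤ) (x : ZMod Q) : (starRingEnd ℂ) (ch k x) = ch (-k) x := by
  rw [ch, ch, ← AddChar.map_neg_eq_conj]; simp

theorem star_ch (k : ℤ) : star (ch k : ZMod Q → ℂ) = ch (-k) := funext fun x => conj_ch k x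

theorem ch_sub (k : ℤ) (x y : ZMod Q) : ch k (x - y) = ch (-k) y * ch k x := by
  rw [ch, ch, ch, ← AddChar.map_add_eq_mul]; congr 1; push_cast; ring

theorem ch_at (k : ℤ) : ch k (0 : ZMod Q) = 1 := by simp [ch]

theorem ch_mul (m n : ℤ) (x : ZMod Q) : ch m x * ch n x = ch (m + n) x := by rw [ch_add]; rfl

theorem ch_pow (n : ℕ) (x : ZMod Q) : ch 1 x ^ n = ch n x := by
  induction n with
  | zero => simp [ch_zero]
  | succ n ih => rw [pow_succ, ih, ch_mul]; norm_cast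

theorem sum_ch {k : ℤ} (h1 : -(Q : ℤ) < k) (h2 : k < Q) :
    ∑ x : ZMod Q, ch k x = if k = 0 then (Q : ℂ) else 0 := by
  have := AddChar.sum_mulShift (k : ZMod Q) (ZMod.isPrimitive_stdAddChar Q)
  simp only [ch]
  rw [this, ZMod.card]
  by_cases h : k = 0
  · simp [h]
  · rw [if_neg h, if_neg, Nat.cast_zero]
    rw [ZMod.intCast_zmod_eq_zero_iff_dvd]
    exact fun hd => h (Int.eq_zero_of_abs_lt_dvd hd (abs_lt.2 ⟨h1, h2⟩))

theorem Qpos : (0 : ℝ) < Q := by exact_mod_cast NeZero.pos Q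

theorem Qne : (Q : ℂ) ≠ 0 := by exact_mod_cast NeZero.ne Q

theorem sum_tr {M : Type} [AddCommMonoid M] (f : ZMod Q → M) (θ : ZMod Q) :
    ∑ x, f (x - θ) = ∑ x, f x := (Equiv.subRight θ).sum_comp f

theorem sum_tr' {M : Type} [AddCommMonoid M] (f : ZMod Q → M) (z : ZMod Q) :
    ∑ θ, f (z - θ) = ∑ x, f x := (Equiv.subLeft z).sum_comp f

theorem pars {H : Type*} [NormedAddCommGroup H] [InnerProductSpace ℂ H] {M : ℕ} (hM : M ≤ Q)
    (lo s : ℤ) (hs : s = 1 ∨ s = -1) (v : ℕ → H) :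
    ∑ x : ZMod Q, ‖∑ a ∈ range M, ch (lo + s * a) x • v a‖ ^ 2 = Q * ∑ a ∈ range M, ‖v a‖ ^ 2 := by
  apply ofReal_injective
  push_cast
  have e : ∀ w : H, ((‖w‖ : ℝ) : ℂ) ^ 2 = inner ℂ w w := fun w => (inner_self_eq_norm_sq_to_K w).symm
  simp only [e, sum_inner, inner_sum, inner_smul_left, inner_smul_right, conj_ch, mul_sum,
    ← mul_assoc, ch_mul]
  rw [sum_comm]
  refine sum_congr rfl fun a ha => ?_
  rw [sum_comm, sum_eq_single a]
  · rw [← sum_mul, sum_ch (by have := NeZero.pos Q; omega) (by have := NeZero.pos Q; omega),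
      if_pos (by ring)]
  · intro b hb hab
    have := mem_range.1 ha
    have := mem_range.1 hb
    rw [← sum_mul, sum_ch (by rcases hs with rfl | rfl <;> omega)
      (by rcases hs with rfl | rfl <;> omega), if_neg (by rcases hs with rfl | rfl <;> omega),
      zero_mul]
  · exact fun h => (h ha).elim

/-- frequencies between `lo` and `hi` -/
def Sp (Q : ℕ) [NeZero Q] (lo hi : ℤ) : Submodule ℂ (ZMod Q → ℂ) :=
  Submodule.span ℂ (ch '' Set.Icc lo hi)

variable {lo hi lo' hi' : ℤ} {f g : ZMod Q → ℂ}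

theorem ch_mem {n : ℤ} (h2 : lo ≤ n) (h3 : n ≤ hi) : ch n ∈ Sp Q lo hi :=
  Submodule.subset_span ⟨n, ⟨h2, h3⟩, rfl⟩

theorem one_mem (h2 : lo ≤ 0) (h3 : 0 ≤ hi) : 1 ∈ Sp Q lo hi := ch_zero (Q := Q) ▸ ch_mem h2 h3

theorem Sp_ind {p : (ZMod Q → ℂ) → Prop} (h0 : p 0) (ha : ∀ f g, p f → p g → p (f + g))
    (hs : ∀ (c : ℂ) f, p f → p (c • f))
    (he : ∀ n : ℤ, lo ≤ n → n ≤ hi → p (ch n)) (hf : f ∈ Sp Q lo hi) : p f := by
  induction hf using Submodule.span_induction with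
  | mem x hx => obtain ⟨n, hn, rfl⟩ := hx; exact he n hn.1 hn.2
  | zero => exact h0
  | add x y _ _ hx hy => exact ha x y hx hy
  | smul c x _ hx => exact hs c x hx

theorem Sp_map {V : Type*} [AddCommGroup V] [Module ℂ V] (φ : (ZMod Q → ℂ) →ₗ[ℂ] V)
    (W : Submodule ℂ V) (he : ∀ n : ℤ, lo ≤ n → n ≤ hi → φ (ch n) ∈ W) (hf : f ∈ Sp Q lo hi) :
    φ f ∈ W :=
  Sp_ind (p := fun f => φ f ∈ W) (by simp) (fun _ _ a b => by rw [map_add]; exact add_mem a b)
    (fun c _ a => by rw [map_smul]; exact W.smul_mem c a) he hf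

theorem Sp_eq {V : Type*} [AddCommGroup V] [Module ℂ V] (φ ψ : (ZMod Q → ℂ) →ₗ[ℂ] V)
    (he : ∀ n : ℤ, lo ≤ n → n ≤ hi → φ (ch n) = ψ (ch n)) (hf : f ∈ Sp Q lo hi) : φ f = ψ f :=
  Sp_ind (p := fun f => φ f = ψ f) (by simp) (fun _ _ a b => by rw [map_add, map_add, a, b])
    (fun c _ a => by rw [map_smul, map_smul, a]) he hf

theorem Sp_mono (hf : f ∈ Sp Q lo hi) (h2 : lo' ≤ lo) (h3 : hi ≤ hi') : f ∈ Sp Q lo' hi' :=
  Sp_map LinearMap.id _ (fun _ a b => ch_mem (h2.trans a) (b.trans h3)) hf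

theorem Sp_mul (hf : f ∈ Sp Q lo hi) (hg : g ∈ Sp Q lo' hi') :
    f * g ∈ Sp Q (lo + lo') (hi + hi') :=
  Sp_map (LinearMap.mulRight ℂ g) _ (fun m a b => Sp_map (LinearMap.mulLeft ℂ (ch m)) _
    (fun n a' b' => by
      rw [LinearMap.mulLeft_apply, ← ch_add]; exact ch_mem (by omega) (by omega)) hg) hf

theorem Sp_star (hf : f ∈ Sp Q lo hi) : star f ∈ Sp Q (-hi) (-lo) :=
  Sp_ind (p := fun f => star f ∈ Sp Q (-hi) (-lo)) (by simp)
    (fun _ _ a b => by rw [star_add]; exact add_mem a b)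
    (fun c _ a => by rw [star_smul]; exact Submodule.smul_mem _ _ a)
    (fun n b c => by rw [star_ch]; exact ch_mem (neg_le_neg c) (neg_le_neg b)) hf

theorem expand {M : ℕ} (hf : f ∈ Sp Q lo hi) (h : hi < lo + M) :
    ∃ co : ℕ → ℂ, ∀ x, f x = ∑ a ∈ range M, ch (lo + 1 * a) x • co a := by
  refine Sp_ind (p := fun f => ∃ co : ℕ → ℂ, ∀ x, f x = ∑ a ∈ range M, ch (lo + 1 * a) x • co a)
    ⟨0, by simp⟩ ?_ ?_ ?_ hf
  · rintro f g ⟨a, ha⟩ ⟨b, hb⟩
    exact ⟨a + b, fun x => by simp [ha, hb, mul_add, sum_add_distrib]⟩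
  · rintro c f ⟨a, ha⟩
    exact ⟨c • a, fun x => by simp [ha, mul_sum, mul_left_comm]⟩
  · intro n h1 h2
    refine ⟨fun a => if a = (n - lo).toNat then 1 else 0, fun x => ?_⟩
    rw [sum_eq_single (n - lo).toNat]
    · simp only [if_true, smul_eq_mul, mul_one]; congr 1; omega
    · intro b _ hb; simp [hb]
    · intro hb; exact (hb (mem_range.2 (by omega))).elim

theorem point_le {M : ℕ} (hf : f ∈ Sp Q lo hi) (h : hi < lo + M) (hM : M ≤ Q) (z : ZMod Q) :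
    Q * ‖f z‖ ^ 2 ≤ M * ∑ x, ‖f x‖ ^ 2 := by
  obtain ⟨co, hc⟩ := expand hf h
  simp only [hc]
  rw [pars hM lo 1 (Or.inl rfl), mul_left_comm]
  refine mul_le_mul_of_nonneg_left ?_ (Nat.cast_nonneg _)
  refine (pow_le_pow_left₀ (norm_nonneg _) (norm_sum_le _ _) 2).trans ?_
  simp only [norm_smul, norm_ch, one_mul]
  simpa using sq_sum_le_card_mul_sum_sq (s := range M) (f := fun a => ‖co a‖)

/-- a family indexed by the frequencies, as a linear map on functions -/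
def syn {V : Type*} [AddCommGroup V] [Module ℂ V] (v : ℕ → V) : (ZMod Q → ℂ) →ₗ[ℂ] V where
  toFun f := ∑ k ∈ range Q, ((Q : ℂ)⁻¹ * ∑ x, f x * ch (-k) x) • v k
  map_add' f g := by simp [add_mul, sum_add_distrib, mul_add, add_smul]
  map_smul' c f := by
    simp only [Pi.smul_apply, smul_eq_mul, mul_assoc, ← mul_sum, RingHom.id_apply, smul_sum,
      smul_smul]
    exact sum_congr rfl fun k _ => by rw [mul_left_comm]

theorem syn_ch {V : Type*} [AddCommGroup V] [Module ℂ V] (v : ℕ → V) {k : ℤ} (h0 : 0 ≤ k)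
    (hk : k < Q) : syn v (ch k : ZMod Q → ℂ) = v k.toNat := by
  simp only [syn, LinearMap.coe_mk, AddHom.coe_mk, ch_mul]
  rw [sum_eq_single k.toNat]
  · rw [sum_ch (by omega) (by omega), if_pos (by omega), inv_mul_cancel₀ Qne, one_smul]
  · intro b hb hbk
    have := mem_range.1 hb
    rw [sum_ch (by omega) (by omega), if_neg (by omega), mul_zero, zero_smul]
  · intro hb; exact (hb (mem_range.2 (by omega))).elim

/-- Dirichlet kernel -/
def dk (r : ℕ) : ZMod Q → ℂ := ∑ a ∈ range r, ch a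

theorem dk_mem (r : ℕ) : dk r ∈ Sp Q 0 (r - 1) :=
  Submodule.sum_mem _ fun a ha => ch_mem (by omega) (by have := mem_range.1 ha; omega)

theorem dk_le (r : ℕ) (x : ZMod Q) : ‖dk r x‖ ≤ r := by
  rw [dk, Finset.sum_apply]
  exact (norm_sum_le _ _).trans (by simp [norm_ch])

theorem dk_at (r : ℕ) : dk r (0 : ZMod Q) = r := by simp [dk, ch_at]

theorem dk_sq {r : ℕ} (hr : r ≤ Q) : ∑ x : ZMod Q, ‖dk r x‖ ^ 2 = Q * r := by
  simpa [dk] using pars hr 0 1 (Or.inl rfl) (fun _ => (1 : ℂ))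

theorem dk_diff (r : ℕ) (x : ZMod Q) : ‖1 - ch 1 x‖ * ‖dk r x‖ ≤ 2 := by
  have : (1 - ch 1 x) * dk r x = 1 - ch 1 x ^ r := by
    rw [dk, Finset.sum_apply]
    simp only [← ch_pow]
    exact mul_neg_geom_sum _ _
  rw [← norm_mul, this]
  refine (norm_sub_le _ _).trans ?_
  rw [norm_pow, norm_ch]; norm_num

theorem dk_shift {r : ℕ} (hr : r ≤ Q) (φ : ZMod Q) :
    ∑ x : ZMod Q, ‖dk r (x - φ) - dk r x‖ ^ 2 ≤ Q * r ^ 3 * ‖1 - ch 1 φ‖ ^ 2 := by
  have e : ∀ x, dk r (x - φ) - dk r x = ∑ a ∈ range r, ch (0 + 1 * a) x • (ch (-a) φ - 1) := by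
    intro x
    simp only [dk, Finset.sum_apply, ← sum_sub_distrib, ch_sub, zero_add, one_mul, smul_eq_mul]
    exact sum_congr rfl fun a _ => by ring
  simp only [e]
  rw [pars hr 0 1 (Or.inl rfl), mul_assoc]
  refine mul_le_mul_of_nonneg_left ?_ (Nat.cast_nonneg _)
  refine (sum_le_card_nsmul _ _ ((r * ‖1 - ch 1 φ‖) ^ 2) fun a ha => ?_).trans
    (le_of_eq (by simp; ring))
  refine pow_le_pow_left₀ (norm_nonneg _) ?_ 2
  have e2 : ch (-a) φ - 1 = ch (-a) φ * ((1 - ch 1 φ) * dk a φ) := by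
    rw [dk, Finset.sum_apply]
    simp only [← ch_pow]
    rw [mul_neg_geom_sum, ch_pow, mul_sub, ch_mul]; simp [ch_zero]
  rw [e2, norm_mul, norm_mul, norm_ch, one_mul, mul_comm]
  refine mul_le_mul_of_nonneg_right ((dk_le a φ).trans ?_) (norm_nonneg _)
  exact_mod_cast (mem_range.1 ha).le

/-- convolution with the square of the Dirichlet kernel -/
def fe (r : ℕ) : (ZMod Q → ℂ) →ₗ[ℂ] (ZMod Q → ℂ) where
  toFun f z := (Q : ℂ)⁻¹ * ∑ θ, ((‖dk r θ‖ ^ 2 : ℝ) : ℂ) * f (z - θ)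
  map_add' f g := by funext z; simp [mul_add, sum_add_distrib]
  map_smul' c f := by funext z; simp [mul_sum, mul_left_comm c]

theorem cnt (lo hi : ℤ) (s : ℕ) : ∑ a ∈ range s, (if lo ≤ a ∧ (a : ℤ) < hi then (1 : ℤ) else 0) =
    max 0 (min (s : ℤ) hi - max 0 lo) := by
  induction s with
  | zero => simp
  | succ s ih => rw [sum_range_succ, ih]; split_ifs <;> omega

theorem fe_ch {r : ℕ} {k : ℤ} (h1 : -(Q : ℤ) ≤ k - r) (h2 : k + r ≤ Q) :
    fe r (ch k : ZMod Q → ℂ) = ((max 0 (r - |k|) : ℤ) : ℂ) • ch k := by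
  funext z
  have e : ∀ θ : ZMod Q, ((‖dk r θ‖ ^ 2 : ℝ) : ℂ) * ch k (z - θ) =
      ∑ a ∈ range r, ∑ b ∈ range r, ch (a + -b + -k) θ * ch k z := fun θ => by
    push_cast
    rw [← mul_conj', ch_sub, dk, Finset.sum_apply, map_sum, sum_mul_sum, sum_mul]
    refine sum_congr rfl fun a _ => ?_
    rw [sum_mul]
    exact sum_congr rfl fun b _ => by rw [conj_ch, ← ch_mul, ← ch_mul]; ring
  have e2 : ∀ a ∈ range r, ∑ θ : ZMod Q, ∑ b ∈ range r, ch (a + -b + -k) θ * ch k z =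
      ((if k ≤ a ∧ (a : ℤ) < r + k then 1 else 0 : ℤ) : ℂ) * (Q * ch k z) := fun a ha => by
    have := mem_range.1 ha
    have c := cnt (a - k) (a - k + 1) r
    rw [sum_comm, show (if k ≤ a ∧ (a : ℤ) < r + k then 1 else 0 : ℤ) = _ from
      Eq.trans (by split_ifs <;> omega) c.symm, Int.cast_sum, sum_mul]
    refine sum_congr rfl fun b hb => ?_
    have := mem_range.1 hb
    rw [← sum_mul, sum_ch (by omega) (by omega)]
    split_ifs <;> first | omega | simp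
  simp only [fe, LinearMap.coe_mk, AddHom.coe_mk, e]
  rw [sum_comm, sum_congr rfl e2, ← sum_mul, ← Int.cast_sum, cnt, mul_left_comm,
    inv_mul_cancel_left₀ Qne, Pi.smul_apply, smul_eq_mul]
  congr 2
  rcases abs_cases k with h | h <;> omega

theorem fe_le {r : ℕ} {B : ℝ} (z : ZMod Q) (h : ∑ θ, ‖dk r θ‖ ^ 2 * ‖f (z - θ)‖ ≤ Q * B) :
    ‖fe r f z‖ ≤ B := by
  simp only [fe, LinearMap.coe_mk, AddHom.coe_mk]
  rw [norm_mul, norm_inv, Complex.norm_natCast, inv_mul_le_iff₀ Qpos]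
  refine (norm_sum_le _ _).trans (le_trans (le_of_eq ?_) h)
  simp

theorem fe_bd {r : ℕ} (hr : r ≤ Q) {B : ℝ} (h : ∀ x, ‖f x‖ ≤ B) (z : ZMod Q) :
    ‖fe r f z‖ ≤ r * B := by
  refine fe_le z ((sum_le_sum fun θ _ => mul_le_mul_of_nonneg_left (h _) (sq_nonneg _)).trans ?_)
  rw [← sum_mul, dk_sq hr, mul_assoc]

theorem split_vp {n b : ℕ} (hn : 2 * n ≤ b) (hb : 4 * b ≤ Q) (hf : f ∈ Sp Q (-b) b)
    (hs : star f = f) {B : ℝ} (h : ∀ x, ‖f x‖ ≤ B) :
    ∃ m ∈ Sp Q n b, (∀ x, ‖m x‖ ≤ 2 * b * B) ∧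
      (n : ℂ) • f = fe (2 * n) f - fe n f + m + star m := by
  let Λ : (ZMod Q → ℂ) →ₗ[ℂ] (ZMod Q → ℂ) := LinearMap.mulLeft ℂ (ch b) ∘ₗ
    (fe (b - n) - fe (b - 2 * n)) ∘ₗ LinearMap.mulLeft ℂ (ch (-b))
  have e : ∀ k : ℤ, -(b : ℤ) ≤ k → k ≤ b →
      Λ (ch k) = ((max 0 (k - n) - max 0 (k - 2 * n) : ℤ) : ℂ) • ch k := fun k h1 h2 => by
    simp only [Λ, LinearMap.comp_apply, LinearMap.mulLeft_apply, LinearMap.sub_apply, ← ch_add]
    rw [fe_ch (by omega) (by omega), fe_ch (by omega) (by omega), ← sub_smul, mul_smul_comm,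
      ← ch_add, ← Int.cast_sub, abs_of_nonpos (by omega)]
    congr 2 <;> omega
  have hB : 0 ≤ B := (norm_nonneg _).trans (h 0)
  refine ⟨Λ f, Sp_map Λ _ (fun k h1 h2 => ?_) hf, fun x => ?_, ?_⟩
  · rw [e k h1 h2]
    by_cases h3 : (n : ℤ) ≤ k
    · exact Submodule.smul_mem _ _ (ch_mem h3 h2)
    · rw [show max 0 (k - n) - max 0 (k - 2 * n) = 0 by omega]; simp
  · have h' : ∀ y, ‖(ch (-b) * f : ZMod Q → ℂ) y‖ ≤ B := fun y => by
      rw [Pi.mul_apply, norm_mul, norm_ch, one_mul]; exact h y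
    have a1 := fe_bd (r := b - n) (by omega) h' x
    have a2 := fe_bd (r := b - 2 * n) (by omega) h' x
    have a3 : ((b - n : ℕ) : ℝ) ≤ b := by exact_mod_cast Nat.sub_le _ _
    have a4 : ((b - 2 * n : ℕ) : ℝ) ≤ b := by exact_mod_cast Nat.sub_le _ _
    simp only [Λ, LinearMap.comp_apply, LinearMap.mulLeft_apply, LinearMap.sub_apply, Pi.mul_apply,
      norm_mul, norm_ch, one_mul, Pi.sub_apply]
    refine (norm_sub_le _ _).trans ?_
    nlinarith [mul_le_mul_of_nonneg_right a3 hB, mul_le_mul_of_nonneg_right a4 hB]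
  · suffices H : (n : ℂ) • f = fe (2 * n) f - fe n f + Λ f + star (Λ (star f)) by rwa [hs] at H
    refine Sp_ind (p := fun f => (n : ℂ) • f = fe (2 * n) f - fe n f + Λ f + star (Λ (star f)))
      (by simp) (fun f g a b => ?_) (fun c f a => ?_) (fun k h1 h2 => ?_) hf
    · simp only [smul_add, map_add, star_add, a, b]; abel
    · rw [smul_comm, a]; simp only [map_smul, star_smul, star_star, smul_add, smul_sub]
    · rw [star_ch, e k h1 h2, e (-k) (by omega) (by omega), fe_ch (by omega) (by omega),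
        fe_ch (by omega) (by omega), star_smul, star_ch, neg_neg, star_intCast, ← sub_smul,
        ← add_smul, ← add_smul, ← Int.cast_sub, ← Int.cast_add, ← Int.cast_add, ← Int.cast_natCast]
      congr 2
      rcases abs_cases k with h | h <;> omega

end

end Pool.Agent.MP_fe3998_an.UB
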