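import Pool.Agent.MP_fe3998_an.UB.Step

/-! Four windows, the iteration and the tower. -/

set_option autoImplicit false

namespace Pool.Agent.MP_fe3998_an.UB

open Finset Complex

noncomputable section

variable {Q : ℕ} [NeZero Q] {H : Type*} [NormedAddCommGroup H] [InnerProductSpace ℂ H]
  {T : H →L[ℂ] H} {c : ℝ}

theorem PB.of_one {K : ℕ} {γ : ℝ} (h : ∀ (ι : Type) [Fintype ι] (a : ℕ) (X : ℕ → ι → ZMod Q → ℂ)
    (ξ : ι → H), 256 * 2 ^ (a + K) ≤ Q → Cls a (a + K) X →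
    (∀ k ≤ 2 ^ (a + K), ∑ j, ‖(T ^ k) (ξ j)‖ ^ 2 ≤ 1 ^ 2) → ‖Yv T X ξ 1 a (a + K)‖ ≤ γ) :
    PB Q T K γ := by
  intro ι _ a X ξ μ hQ hX h0 hμ
  rcases h0.eq_or_lt with rfl | h0
  · have : ∀ j, ξ j = 0 := fun j => by
      have := (single_le_sum (f := fun j => ‖(T ^ 0) (ξ j)‖ ^ 2) (fun _ _ => sq_nonneg _)
        (mem_univ j)).trans (hμ 0 (Nat.zero_le _))
      simpa using this
    simp [Yv, this]
  have e : ‖((μ⁻¹ : ℝ) : ℂ)‖ = μ⁻¹ := by rw [norm_real, Real.norm_of_nonneg (inv_pos.2 h0).le]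
  have := h ι a X (fun j => ((μ⁻¹ : ℝ) : ℂ) • ξ j) hQ hX fun k hk => by
    simp only [map_smul, norm_smul, e, mul_pow, ← mul_sum]
    rw [inv_pow, inv_mul_le_iff₀ (by positivity), one_pow, mul_one]
    exact hμ k hk
  simp only [Yv, map_smul, ← smul_sum, norm_smul, e] at this
  rw [mul_comm]
  exact (inv_mul_le_iff₀ h0).1 this

theorem four [CompleteSpace H] (hT : ∀ k, ‖T ^ k‖ ≤ c) (hc : 1 ≤ c) {L g J : ℕ} {γ γL ρ : ℝ}
    (hγL : 1 ≤ γL) (hL1 : 1 ≤ L) (hP : PB Q T (J * (2 ^ g * L)) γ) (hL : PB Q T L γL) (hρ : 0 < ρ)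
    (hW : 2 ^ 39 * c ^ 6 * 8 ^ L ≤ (2 ^ g : ℕ))
    (hρR : 224 * c ^ 2 * (16 * (2 ^ g : ℕ) * 2 ^ (2 ^ g * L)) ^ 2 * ρ ≤ 1)
    (hJ : 256 * c * (16 * (2 ^ g : ℕ) * 2 ^ (2 ^ g * L)) ^ 2 ≤ J)
    (hγ : (1 - 1 / (8 * c ^ 2)) * (J * (2 ^ g : ℕ) * γL) ≤ γ) :
    PB Q T (4 * J * (2 ^ g * L)) (4 * (1 - ρ ^ 2 / 8) * γ) := by
  have g1 : g < 2 ^ g := Nat.lt_two_pow_self
  have W1 : (1 : ℝ) ≤ (2 ^ g : ℕ) := by exact_mod_cast (by omega : 1 ≤ 2 ^ g)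
  have R1 : (1 : ℝ) ≤ (16 * (2 ^ g : ℕ) * 2 ^ (2 ^ g * L)) ^ 2 := one_le_pow₀
    (one_le_mul_of_one_le_of_one_le (by linarith) (one_le_pow₀ one_le_two))
  have c2 : 1 ≤ c ^ 2 := one_le_pow₀ hc
  have J1 : (3 : ℝ) ≤ J := by nlinarith
  have J3 : 3 ≤ J := by exact_mod_cast J1
  have t1 : 1 / (8 * c ^ 2) ≤ 1 / 8 := by
    rw [div_le_div_iff₀ (by positivity) (by norm_num)]; linarith
  have p1 : (J : ℝ) ≤ J * (2 ^ g : ℕ) * γL := by
    rw [mul_assoc]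
    exact le_mul_of_one_le_right (by linarith) (one_le_mul_of_one_le_of_one_le W1 hγL)
  have γ1 : (J : ℝ) / 2 ≤ γ := by nlinarith
  have γ0 : 0 < γ := by linarith
  have ρ1 : 224 * c ^ 2 * ρ ≤ 1 := by
    nlinarith [mul_le_mul_of_nonneg_left R1 (by positivity : 0 ≤ 224 * c ^ 2 * ρ)]
  have ρ2 : ρ ≤ 1 := by nlinarith
  have k1 : 2 ^ g ≤ 2 ^ g * L := Nat.le_mul_of_pos_right _ hL1
  have k2 : 3 * (2 ^ g * L) ≤ J * (2 ^ g * L) := Nat.mul_le_mul_right _ J3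
  rw [mul_assoc 4 J]
  generalize hK : J * (2 ^ g * L) = K at *
  refine PB.of_one fun ι _ a X ξ hQ hX hμ => ?_
  by_contra hlt
  rw [not_le] at hlt
  have w : ∀ t, a ≤ t → t + K ≤ a + 4 * K → ‖Yv T X ξ 1 t (t + K)‖ ≤ γ := fun t h1 h2 => by
    simpa using win hP hX hQ h1 h2 zero_le_one hμ
  have e : Yv T X ξ 1 a (a + 4 * K) = Yv T X ξ 1 a (a + K) + Yv T X ξ 1 (a + K) (a + K + K) +
      Yv T X ξ 1 (a + K + K) (a + K + K + K) + Yv T X ξ 1 (a + K + K + K) (a + K + K + K + K) := by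
    rw [Yv_add, Yv_add, Yv_add]; congr 1; ring
  have Y0 : 0 < ‖Yv T X ξ 1 a (a + 4 * K)‖ := lt_of_le_of_lt
    (mul_nonneg (by linarith [pow_le_one₀ (n := 2) hρ.le ρ2]) γ0.le) hlt
  obtain ⟨η, η1, η2⟩ : ∃ η : H, ‖η‖ = 1 ∧
      (inner ℂ η (Yv T X ξ 1 a (a + 4 * K))).re = ‖Yv T X ξ 1 a (a + 4 * K)‖ := by
    generalize Yv T X ξ 1 a (a + 4 * K) = Y at Y0
    refine ⟨((‖Y‖⁻¹ : ℝ) : ℂ) • Y, ?_, ?_⟩
    · rw [norm_smul, norm_real, norm_inv, norm_norm, inv_mul_cancel₀ Y0.ne']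
    · rw [inner_smul_left, conj_ofReal, re_ofReal_mul, ← RCLike.re_to_complex,
        inner_self_eq_norm_sq]
      field_simp
  have r : ∀ v : H, (inner ℂ η v).re ≤ ‖v‖ := fun v =>
    (re_le_norm _).trans ((norm_inner_le_norm (𝕜 := ℂ) η v).trans (by rw [η1, one_mul]))
  have d : ∀ v : H, ‖v‖ ≤ γ → γ * (1 - ρ ^ 2 / 2) ≤ (inner ℂ η v).re →
      ‖(γ : ℂ) • η - v‖ ≤ ρ * γ := fun v h1 h2 => by
    refine (abs_le_of_sq_le_sq' ?_ (by positivity)).2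
    rw [norm_sub_sq (𝕜 := ℂ), norm_smul, norm_real, η1, inner_smul_left, conj_ofReal,
      RCLike.re_to_complex, re_ofReal_mul, Real.norm_of_nonneg γ0.le]
    nlinarith [pow_le_pow_left₀ (norm_nonneg _) h1 2, mul_le_mul_of_nonneg_left h2 γ0.le]
  have w1 := w a le_rfl (by omega)
  have w2 := w (a + K) (by omega) (by omega)
  have w3 := w (a + K + K) (by omega) (by omega)
  have w4 := w (a + K + K + K) (by omega) (by omega)
  rw [← η2, e, inner_add_right, inner_add_right, inner_add_right, add_re, add_re, add_re] at hlt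
  have r1 := (r _).trans w1
  have r2 := (r _).trans w2
  have r3 := (r _).trans w3
  have r4 := (r _).trans w4
  have d1 := d _ w1 (by linarith)
  have d4 := d _ w4 (by linarith)
  have s2 : ‖Yv T X ξ 1 (a + K) (a + K + J * (2 ^ g * L))‖ ≤
      ∑ _i ∈ range J, (2 ^ g : ℕ) * γL * (1 - 3 / (16 * c ^ 2)) := Yv_sum_le _ fun i hi => by
    have h1 := Nat.mul_le_mul_right (2 ^ g * L) (by omega : i + 1 ≤ J)
    rw [add_mul, one_mul] at h1 ⊢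
    obtain ⟨u, hu⟩ := Nat.exists_eq_add_of_le (by omega : g + 1 ≤ a + K + i * (2 ^ g * L))
    rw [← add_assoc]
    refine sub_window hT hc (n := 2 ^ u) (t4 := a + K + K + K) γ0 hγL hP hL hX hQ (by omega)
      (by omega) (by omega) (by omega) (by rw [hu]; ring) hμ η η1 hρ ?_
      (by nlinarith [mul_nonneg γ0.le (sq_nonneg ρ)]) hW hρR (by linarith)
    refine (norm_sub_le_norm_sub_add_norm_sub _ ((γ : ℂ) • η) _).trans ?_
    rw [norm_sub_rev]; linarith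
  rw [hK, sum_const, card_range, nsmul_eq_mul] at s2
  have s3 := (r _).trans s2
  have s4 : γ * (1 - 1 / (16 * c ^ 2)) ≤ γ * (1 - ρ ^ 2 / 2) := by
    refine mul_le_mul_of_nonneg_left (sub_le_sub_left ?_ 1) γ0.le
    rw [le_div_iff₀ (by positivity)]
    nlinarith [mul_le_mul_of_nonneg_left ρ2 (by positivity : 0 ≤ c ^ 2 * ρ)]
  have s5 : 3 / (16 * c ^ 2) = 3 * (1 / (16 * c ^ 2)) := by ring
  have s6 : 1 / (8 * c ^ 2) = 2 * (1 / (16 * c ^ 2)) := by field_simp; norm_num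
  have s7 : 0 < 1 / (16 * c ^ 2) := by positivity
  rw [s5] at s3
  rw [s6] at hγ t1
  generalize 1 / (16 * c ^ 2) = x at *
  nlinarith [mul_le_mul_of_nonneg_right hγ (by linarith : 0 ≤ 1 - x),
    mul_nonneg (by linarith : 0 ≤ (J : ℝ) * (2 ^ g : ℕ) * γL) (sq_nonneg x)]

theorem iter [CompleteSpace H] (hT : ∀ k, ‖T ^ k‖ ≤ c) (hc : 1 ≤ c) {L g J : ℕ} {γL ρ : ℝ}
    (hγL : 1 ≤ γL) (hL1 : 1 ≤ L) (hL : PB Q T L γL) (hρ : 0 < ρ)
    (hW : 2 ^ 39 * c ^ 6 * 8 ^ L ≤ (2 ^ g : ℕ))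
    (hρR : 224 * c ^ 2 * (16 * (2 ^ g : ℕ) * 2 ^ (2 ^ g * L)) ^ 2 * ρ ≤ 1)
    (hJ : 256 * c * (16 * (2 ^ g : ℕ) * 2 ^ (2 ^ g * L)) ^ 2 ≤ J) (hρ1 : ρ ≤ 1) (w : ℕ) :
    PB Q T (4 ^ w * J * (2 ^ g * L)) (max ((1 - ρ ^ 2 / 8) ^ w) (1 - 1 / (8 * c ^ 2)) *
      ((4 ^ w * J : ℕ) * (2 ^ g : ℕ) * γL)) := by
  have e0 : 0 ≤ 1 - ρ ^ 2 / 8 := by nlinarith
  have p : ∀ w, (0 : ℝ) ≤ (4 ^ w * J : ℕ) * (2 ^ g : ℕ) * γL := fun w => by positivity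
  induction w with
  | zero =>
    rw [pow_zero, one_mul]
    refine ((hL.mul (2 ^ g)).mul J).mono ?_
    rw [← mul_assoc]
    exact le_mul_of_one_le_left (by positivity) (le_max_of_le_left (by simp))
  | succ w ih =>
    have := four hT hc hγL hL1 ih hL hρ hW hρR
      (hJ.trans (by exact_mod_cast Nat.le_mul_of_pos_left J (by positivity)))
      (mul_le_mul_of_nonneg_right (le_max_right _ _) (p w))
    rw [pow_succ' 4, mul_assoc 4 (4 ^ w)]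
    refine this.mono ?_
    have h1 : (1 - ρ ^ 2 / 8) * max ((1 - ρ ^ 2 / 8) ^ w) (1 - 1 / (8 * c ^ 2)) ≤
        max ((1 - ρ ^ 2 / 8) ^ (w + 1)) (1 - 1 / (8 * c ^ 2)) := by
      rw [mul_max_of_nonneg _ _ e0, pow_succ' _ w]
      refine max_le_max le_rfl (mul_le_of_le_one_left ?_ (by nlinarith))
      rw [sub_nonneg, div_le_one (by positivity)]; nlinarith
    refine le_trans (le_of_eq ?_) ((mul_le_mul_of_nonneg_right h1
      (mul_nonneg zero_le_four (p w))).trans (le_of_eq ?_)) <;> push_cast <;> ring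

theorem lt2 (x : ℕ) : x < 2 ^ x := Nat.lt_two_pow_self

theorem lin2 {x : ℕ} (hx : 8 ≤ x) : 16 * x ≤ 2 ^ x := by
  obtain ⟨y, rfl⟩ := Nat.exists_eq_add_of_le hx
  have := lt2 y
  rw [pow_add]; omega

/-- the length of the next scale -/
def nx (C L : ℕ) : ℕ :=
  4 ^ 2 ^ (4 * 2 ^ (2 * (C + 3 * L))) * 2 ^ 2 ^ (2 * (C + 3 * L)) * (2 ^ (C + 3 * L) * L)

theorem gain [CompleteSpace H] (hT : ∀ k, ‖T ^ k‖ ≤ c) (hc : 1 ≤ c) {L C : ℕ} {γL : ℝ}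
    (hC : 2 ^ 39 * c ^ 6 ≤ 2 ^ C) (hγ : 1 ≤ γL * L) (hL1 : 1 ≤ L) (hL : PB Q T L (γL * L)) :
    PB Q T (nx C L) ((1 - 1 / (8 * c ^ 2)) * γL * nx C L) := by
  set g := C + 3 * L with hg
  set E := 2 ^ (2 * g) with hE
  have c6 : c ^ 2 ≤ c ^ 6 := pow_le_pow_right₀ hc (by norm_num)
  have c2 : c ≤ c ^ 2 := le_self_pow₀ hc two_ne_zero
  have hC8 : 8 ≤ C := by
    by_contra h
    have : (2 : ℝ) ^ C ≤ 2 ^ 8 := pow_le_pow_right₀ one_le_two (by omega)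
    nlinarith
  have a1 : C + 8 + 2 * g + 2 * (2 ^ g * L) ≤ E := by
    have b1 := lin2 (x := g) (by omega)
    have b2 : 2 ^ g * (16 * g) ≤ 2 ^ g * 2 ^ g := Nat.mul_le_mul_left _ b1
    have b3 : 2 ^ g * L ≤ 2 ^ g * g := Nat.mul_le_mul_left _ (by omega)
    have b4 : g ≤ 2 ^ g * g := Nat.le_mul_of_pos_left _ (by positivity)
    rw [hE, two_mul g, pow_add 2 g g]
    nlinarith
  have a2 : 2 ^ 39 * c ^ 6 * (16 * (2 ^ g : ℕ) * 2 ^ (2 ^ g * L)) ^ 2 ≤ 2 ^ E := by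
    refine (mul_le_mul_of_nonneg_right hC (sq_nonneg _)).trans
      (le_trans (le_of_eq ?_) (pow_le_pow_right₀ one_le_two a1))
    push_cast; ring
  have pE : (0 : ℝ) < 2 ^ E := by positivity
  have p2 : (0 : ℝ) ≤ (16 * (2 ^ g : ℕ) * 2 ^ (2 ^ g * L)) ^ 2 := sq_nonneg _
  have := iter hT hc (g := g) (J := 2 ^ E) (ρ := (2 ^ E)⁻¹) hγ hL1 hL (by positivity)
    (by rw [hg, show (8 : ℝ) = 2 ^ 3 by norm_num, ← pow_mul]
        push_cast; rw [pow_add]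
        exact mul_le_mul_of_nonneg_right hC (by positivity))
    (by rw [mul_inv_le_iff₀ pE]; nlinarith [mul_le_mul_of_nonneg_right c6 p2])
    (by rw [Nat.cast_pow 2 E, Nat.cast_ofNat]; nlinarith [mul_le_mul_of_nonneg_right (c2.trans c6) p2])
    (inv_le_one_of_one_le₀ (one_le_pow₀ one_le_two)) (2 ^ (4 * E))
  refine this.mono (le_of_eq ?_)
  rw [max_eq_right]
  · unfold nx; rw [← hg, ← hE]; push_cast; ring
  · set x : ℝ := ((2 ^ E)⁻¹) ^ 2 / 8 with hx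
    have x0 : 0 ≤ x := by positivity
    have x1 : x ≤ 1 := by
      have : ((2 ^ E : ℝ)⁻¹) ^ 2 ≤ 1 := pow_le_one₀ (by positivity)
        (inv_le_one_of_one_le₀ (one_le_pow₀ one_le_two))
      linarith
    have b1 := one_add_mul_le_pow (a := x) (by linarith) (2 ^ (4 * E))
    have b2 : (1 - x) ^ 2 ^ (4 * E) * (1 + x) ^ 2 ^ (4 * E) ≤ 1 := by
      rw [← mul_pow]; exact pow_le_one₀ (by nlinarith) (by nlinarith)
    have b3 : (1 : ℝ) ≤ (2 ^ (4 * E) : ℕ) * x := by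
      have : (2 : ℝ) ^ 3 ≤ 2 ^ (2 * E) := pow_le_pow_right₀ one_le_two (by omega)
      rw [hx, show 4 * E = 2 * E + E * 2 by ring]
      push_cast
      rw [pow_add, pow_mul _ E]
      field_simp
      linarith
    have b4 : 0 ≤ (1 - x) ^ 2 ^ (4 * E) := pow_nonneg (by linarith) _
    have b5 : 1 / (8 * c ^ 2) ≤ 1 / 8 := by
      rw [div_le_div_iff₀ (by positivity) (by norm_num)]; linarith
    nlinarith [mul_le_mul_of_nonneg_left b1 b4]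

theorem nx_le {C L : ℕ} (hC : 8 ≤ C) : nx C L + C ≤ 2 ^ 2 ^ 2 ^ 2 ^ (L + C) := by
  set g := C + 3 * L with hg
  set E := 2 ^ (2 * g) with hE
  have a1 := lin2 (x := L + C) (by omega)
  have a2 : 2 ^ (2 * g + 3) ≤ 2 ^ 2 ^ (L + C) := two_le' (by omega)
  have a3 : 2 ^ (4 * E + 3) ≤ 2 ^ 2 ^ 2 ^ (L + C) := two_le' (by
    have : 0 < E := by positivity
    rw [pow_add] at a2; omega)
  have a4 := lt2 (2 * g)
  have a5 := lt2 (4 * E)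
  have a6 := lt2 L
  have a7 := lt2 C
  have a8 : nx C L ≤ 2 ^ (2 * 2 ^ (4 * E) + E + (g + L)) := by
    unfold nx
    rw [← hg, ← hE, pow_add 2 _ (g + L), pow_add 2 _ E, pow_add 2 g L, pow_mul 2 2]
    exact Nat.mul_le_mul_left _ (Nat.mul_le_mul_left _ a6.le)
  have a9 : 2 ^ C ≤ 2 ^ (2 * 2 ^ (4 * E) + E + (g + L)) := two_le' (by omega)
  have a10 : 2 ^ (2 * 2 ^ (4 * E) + E + (g + L) + 1) ≤ 2 ^ 2 ^ 2 ^ 2 ^ (L + C) :=
    two_le' (by rw [pow_add] at a3; omega)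
  rw [pow_succ] at a10
  omega

theorem le_nx (C L : ℕ) : 4 * L ≤ nx C L := by
  unfold nx
  refine Nat.mul_le_mul (le_trans ?_ (Nat.le_mul_of_pos_right _ (by positivity)))
    (Nat.le_mul_of_pos_left _ (by positivity))
  exact Nat.le_self_pow (by positivity) 4

theorem scales [CompleteSpace H] (hT : ∀ k, ‖T ^ k‖ ≤ c) (hc : 1 ≤ c) {C : ℕ}
    (hC : 2 ^ 39 * c ^ 6 ≤ 2 ^ C) (h : ℕ) : 1 ≤ (nx C)^[h] 1 ∧
      1 ≤ 26 * c * (1 - 1 / (8 * c ^ 2)) ^ h * ((nx C)^[h] 1 : ℕ) ∧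
      PB Q T ((nx C)^[h] 1) (26 * c * (1 - 1 / (8 * c ^ 2)) ^ h * ((nx C)^[h] 1 : ℕ)) := by
  induction h with
  | zero => exact ⟨le_rfl, by simp; linarith, by simpa using PB.base hT⟩
  | succ h ih =>
    obtain ⟨i1, i2, i3⟩ := ih
    rw [Function.iterate_succ_apply']
    have l := le_nx C ((nx C)^[h] 1)
    have l' : (4 : ℝ) * ((nx C)^[h] 1 : ℕ) ≤ nx C ((nx C)^[h] 1) := by exact_mod_cast l
    have b5 : 1 / (8 * c ^ 2) ≤ 1 / 8 := by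
      rw [div_le_div_iff₀ (by positivity) (by norm_num)]; nlinarith
    have p : 0 ≤ 26 * c * (1 - 1 / (8 * c ^ 2)) ^ h :=
      mul_nonneg (by linarith) (pow_nonneg (by linarith) _)
    refine ⟨by omega, ?_, (gain hT hc hC i2 i1 i3).mono (le_of_eq (by ring))⟩
    rw [pow_succ, ← mul_assoc, mul_assoc _ _ (_ : ℝ)]
    refine i2.trans (mul_le_mul_of_nonneg_left ?_ p)
    nlinarith [mul_le_mul (by linarith : 7 / 8 ≤ 1 - 1 / (8 * c ^ 2)) l' (by positivity) (by linarith),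
      (Nat.cast_nonneg ((nx C)^[h] 1) : (0 : ℝ) ≤ _)]

end

end Pool.Agent.MP_fe3998_an.UB
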