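import Mathlib.Algebra.Polynomial.AlgebraMap
import Mathlib.Algebra.Polynomial.Eval.Degree
import Pool.Agent.MP_fe3998_an.UB.Iter

/-! The de la Vallee-Poussin means of a bounded polynomial belong to the class. -/

set_option autoImplicit false

namespace Pool.Agent.MP_fe3998_an.UB

open Finset Complex

noncomputable section

variable {Q : ℕ} [NeZero Q]

/-- Fourier multiplier -/
def mu (m : ℤ → ℝ) : (ZMod Q → ℂ) →ₗ[ℂ] (ZMod Q → ℂ) := syn fun k => (m k : ℂ) • ch k

theorem mu_ch (m : ℤ → ℝ) {k : ℤ} (h0 : 0 ≤ k) (hk : k < Q) :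
    mu m (ch k : ZMod Q → ℂ) = (m k : ℂ) • ch k := by
  rw [mu, syn_ch _ h0 hk, Int.toNat_of_nonneg h0]

theorem mu_sq {g : ZMod Q → ℂ} {hi : ℤ} (hg : g ∈ Sp Q 0 hi) (h : hi < Q) :
    ∃ w : ℕ → ℝ, (∀ a, 0 ≤ w a) ∧ ∑ z, ‖g z‖ ^ 2 = ∑ a ∈ range Q, w a ∧
      ∀ m, ∑ z, ‖mu m g z‖ ^ 2 = ∑ a ∈ range Q, m a ^ 2 * w a := by
  obtain ⟨co, hc⟩ := expand hg (M := Q) (by omega)
  refine ⟨fun a => Q * ‖co a‖ ^ 2, fun a => by positivity, ?_, fun m => ?_⟩
  · simp only [hc]; rw [pars le_rfl 0 1 (Or.inl rfl), mul_sum]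
  · have e : g = ∑ a ∈ range Q, co a • ch a := funext fun x => by
      simp [hc, Finset.sum_apply, mul_comm]
    have e2 : ∀ z, mu m g z = ∑ a ∈ range Q, ch (0 + 1 * a) z • ((m a : ℂ) * co a) := fun z => by
      rw [e, map_sum, Finset.sum_apply]
      refine sum_congr rfl fun a ha => ?_
      have := mem_range.1 ha
      rw [map_smul, mu_ch m (by omega) (by omega)]
      simp; ring
    simp only [e2]
    rw [pars le_rfl 0 1 (Or.inl rfl), mul_sum]
    exact sum_congr rfl fun a _ => by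
      rw [norm_mul, norm_real, mul_pow, Real.norm_eq_abs, sq_abs]; ring

theorem comm_le {f : ZMod Q → ℂ} {N r : ℕ} (hf : f ∈ Sp Q 0 N) (h1 : ∀ z, ‖f z‖ ≤ 1)
    (hQ : N + r < Q) (m : ℤ → ℝ) {l : ℝ} (hl : ∀ k, |m (k + 1) - m k| ≤ l) (θ : ZMod Q) :
    ∑ z, ‖dk r (z - θ)‖ ^ 2 * ‖mu m f z‖ ^ 2 ≤
      2 * ∑ z, ‖mu m (tr θ (dk r) * f) z‖ ^ 2 + 2 * r ^ 2 * (l ^ 2 * (Q * r)) := by
  let D : ℕ → ZMod Q → ℂ := fun j => ∑ a ∈ range r, (if j < a then ch (-a) θ else 0) • ch a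
  have e0 : tr θ (dk r) = ∑ a ∈ range r, ch (-a) θ • ch a := funext fun z => by
    simp [tr_apply, dk, Finset.sum_apply, ch_sub]
  have e : tr θ (dk r) * mu m f = mu m (tr θ (dk r) * f) -
      ∑ j ∈ range r, mu (fun k => m (k - j) - m (k - j - 1)) (D j * f) := by
    have := Sp_eq (LinearMap.mulLeft ℂ (tr θ (dk r)) ∘ₗ mu m)
      (mu m ∘ₗ LinearMap.mulLeft ℂ (tr θ (dk r)) - ∑ j ∈ range r,
        mu (fun k => m (k - j) - m (k - j - 1)) ∘ₗ LinearMap.mulLeft ℂ (D j)) (fun k a1 a2 => ?_) hf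
    · simpa using this
    simp only [LinearMap.comp_apply, LinearMap.mulLeft_apply, LinearMap.sub_apply,
      LinearMap.sum_apply, D, e0, sum_mul, map_sum, smul_mul_assoc, map_smul, ← ch_add]
    rw [sum_comm, ← sum_sub_distrib, mu_ch m a1 (by omega)]
    refine sum_congr rfl fun a ha => ?_
    have := mem_range.1 ha
    have t : ∑ j ∈ range r, (if j < a then ch (-a) θ else 0) *
        ((m (a + k - j) - m (a + k - j - 1) : ℝ) : ℂ) = ch (-a) θ * (m (a + k) - m k) := by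
      rw [← sum_subset (range_subset_range.2 this.le) fun j _ hj => by
        rw [if_neg (mem_range.not.1 hj), zero_mul],
        sum_congr rfl fun j hj => by rw [if_pos (mem_range.1 hj)], ← mul_sum, ← ofReal_sum]
      have := sum_range_sub' (fun j : ℕ => m (a + k - j)) a
      simp only [Nat.cast_add, Nat.cast_one, ← sub_sub, Nat.cast_zero, sub_zero,
        add_sub_cancel_left] at this
      rw [this]; push_cast; rfl
    simp only [fun m => mu_ch (Q := Q) m (k := a + k) (by omega) (by omega), mul_smul_comm,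
      ← ch_add, smul_smul, ← sum_smul, ← sub_smul, t]
    congr 1; ring
  have b1 : ∀ j ∈ range r, ∑ z, ‖mu (fun k => m (k - j) - m (k - j - 1)) (D j * f) z‖ ^ 2 ≤
      l ^ 2 * (Q * r) := fun j _ => by
    have d1 : D j ∈ Sp Q 0 r := Submodule.sum_mem _ fun a ha => Submodule.smul_mem _ _
      (ch_mem (by omega) (by have := mem_range.1 ha; omega))
    obtain ⟨w, w0, w1, w2⟩ := mu_sq (hi := r + N)
      (Sp_mono (Sp_mul d1 hf) (by omega) le_rfl) (by omega)
    have d2 : ∑ z, ‖(D j * f) z‖ ^ 2 ≤ Q * r := by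
      refine (sum_le_sum (g := fun z => ‖∑ a ∈ range r, ch (0 + 1 * a) z •
        (if j < a then ch (-a) θ else 0)‖ ^ 2) fun z _ => ?_).trans ?_
      · refine pow_le_pow_left₀ (norm_nonneg _) ?_ 2
        rw [Pi.mul_apply, norm_mul]
        refine (mul_le_of_le_one_right (norm_nonneg _) (h1 z)).trans (le_of_eq ?_)
        simp only [D, Finset.sum_apply, Pi.smul_apply, smul_eq_mul, zero_add, one_mul]
        simp only [mul_comm]
      · rw [pars (by omega) 0 1 (Or.inl rfl)]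
        refine mul_le_mul_of_nonneg_left ((sum_le_card_nsmul _ _ 1 fun a _ => ?_).trans (by simp))
          (Nat.cast_nonneg _)
        split_ifs <;> simp [norm_ch]
    rw [w2]
    refine le_trans (sum_le_sum fun a _ => mul_le_mul_of_nonneg_right ?_ (w0 a))
      ((mul_sum _ _ _).symm.le.trans (mul_le_mul_of_nonneg_left (w1 ▸ d2) (sq_nonneg l)))
    have := hl (a - j - 1)
    rw [sub_add_cancel] at this
    exact sq_le_sq' (abs_le.1 this).1 (abs_le.1 this).2
  have b2 := sum_le_card_nsmul _ _ _ b1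
  rw [card_range, nsmul_eq_mul, sum_comm] at b2
  refine (sum_le_sum (g := fun z => 2 * ‖mu m (tr θ (dk r) * f) z‖ ^ 2 + 2 * r *
    ∑ j ∈ range r, ‖mu (fun k => m (k - j) - m (k - j - 1)) (D j * f) z‖ ^ 2) fun z _ => ?_).trans ?_
  · rw [← mul_pow, ← tr_apply θ (dk r), ← norm_mul, ← Pi.mul_apply, e, Pi.sub_apply, Finset.sum_apply]
    have c1 := pow_le_pow_left₀ (norm_nonneg _) ((norm_sub_le (mu m (tr θ (dk r) * f) z) _).trans
      (add_le_add le_rfl (norm_sum_le (range r)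
        fun j => mu (fun k => m (k - j) - m (k - j - 1)) (D j * f) z))) 2
    have c2 := sq_sum_le_card_mul_sum_sq (s := range r)
      (f := fun j => ‖mu (fun k => m (k - j) - m (k - j - 1)) (D j * f) z‖)
    rw [card_range] at c2
    nlinarith [sq_nonneg (‖mu m (tr θ (dk r) * f) z‖ -
      ∑ j ∈ range r, ‖mu (fun k => m (k - j) - m (k - j - 1)) (D j * f) z‖)]
  · rw [sum_add_distrib, ← mul_sum, ← mul_sum]
    nlinarith [mul_le_mul_of_nonneg_left b2 (Nat.cast_nonneg r)]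

/-- the de la Vallee-Poussin multiplier -/
def vm (n : ℕ) (k : ℤ) : ℝ := max 0 (min 1 (2 - |(k : ℝ)| / n))

theorem vm_lo {n : ℕ} {k : ℤ} (hn : 0 < n) (h : |k| ≤ n) : vm n k = 1 := by
  have h' : |(k : ℝ)| / n ≤ 1 := (div_le_one (by exact_mod_cast hn)).2 (by exact_mod_cast h)
  rw [vm, min_eq_left (by linarith), max_eq_right zero_le_one]

theorem vm_hi {n : ℕ} {k : ℤ} (hn : 0 < n) (h : 2 * n ≤ |k|) : vm n k = 0 := by
  have h' : 2 ≤ |(k : ℝ)| / n := (le_div_iff₀ (by exact_mod_cast hn)).2 (by exact_mod_cast h)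
  exact max_eq_left (min_le_of_right_le (by linarith))

theorem vm_eq {n : ℕ} (hn : 0 < n) (k : ℤ) :
    n * vm n k = (max 0 ((2 * n : ℕ) - |k|) - max 0 (n - |k|) : ℤ) := by
  have p : (0 : ℝ) < n := by exact_mod_cast hn
  rcases le_total |k| n with h | h
  · rw [vm_lo hn h, mul_one, ← Int.cast_natCast]; congr 1; omega
  rcases le_total (2 * n : ℤ) |k| with h2 | h2
  · rw [vm_hi hn h2, mul_zero, ← Int.cast_zero]; congr 1; omega
  have h3 : 1 ≤ |(k : ℝ)| / n := (one_le_div p).2 (by exact_mod_cast h)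
  have h4 : |(k : ℝ)| / n ≤ 2 := (div_le_iff₀ p).2 (by exact_mod_cast h2)
  rw [vm, min_eq_right (by linarith), max_eq_right (by linarith), max_eq_right (by omega),
    max_eq_left (by omega)]
  push_cast; field_simp; ring

theorem vm_mono {n n' : ℕ} (hn : 0 < n) (h : n ≤ n') (k : ℤ) : vm n k ≤ vm n' k :=
  max_le_max le_rfl (min_le_min le_rfl (sub_le_sub_left (div_le_div_of_nonneg_left (abs_nonneg _)
    (by exact_mod_cast hn) (by exact_mod_cast h)) 2))

theorem vm_lip {n n' : ℕ} (hn : 0 < n) (h : n ≤ n') (k : ℤ) : |vm n' (k + 1) - vm n' k| ≤ 1 / n := by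
  have p : (0 : ℝ) < n := by exact_mod_cast hn
  have p' : (n : ℝ) ≤ n' := by exact_mod_cast h
  refine (abs_max_sub_max_le_max _ _ _ _).trans (max_le (by simp) ((abs_min_sub_min_le_max
    _ _ _ _).trans (max_le (by simp) ?_)))
  rw [sub_sub_sub_cancel_left, ← sub_div, abs_div, abs_of_pos (by linarith : (0 : ℝ) < n')]
  refine div_le_div₀ zero_le_one ((abs_abs_sub_abs_le_abs_sub _ _).trans (by simp)) p p'

theorem vp_le {f : ZMod Q → ℂ} {N n : ℕ} (hf : f ∈ Sp Q 0 N) (h1 : ∀ z, ‖f z‖ ≤ 1) (hn : 0 < n)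
    (hQ : N + 2 * n ≤ Q) (z : ZMod Q) : ‖mu (vm n) f z‖ ≤ 3 := by
  have p : (0 : ℝ) < n := by exact_mod_cast hn
  have e := Sp_eq ((n : ℂ) • mu (vm n)) (fe (2 * n) - fe n) (fun k a1 a2 => by
    rw [LinearMap.smul_apply, LinearMap.sub_apply, mu_ch _ a1 (by omega),
      fe_ch (by omega) (by omega), fe_ch (by omega) (by omega), smul_smul, ← sub_smul,
      ← Int.cast_sub, ← ofReal_natCast, ← ofReal_mul, vm_eq hn, ofReal_intCast]) hf
  have := congrArg (fun g => ‖g z‖) e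
  simp only [LinearMap.smul_apply, Pi.smul_apply, norm_smul, Complex.norm_natCast,
    LinearMap.sub_apply, Pi.sub_apply] at this
  have a1 := fe_bd (r := 2 * n) (by omega) h1 z
  have a2 := fe_bd (r := n) (by omega) h1 z
  refine le_of_mul_le_mul_left (this.le.trans ((norm_sub_le _ _).trans ?_)) p
  push_cast at a1
  linarith

theorem init {f : ZMod Q → ℂ} {N K : ℕ} (hf : f ∈ Sp Q 0 N) (h1 : ∀ z, ‖f z‖ ≤ 1)
    (hN : N ≤ 32 * 2 ^ K) (hQ : 256 * 2 ^ K ≤ Q) :
    Cls 0 K fun t (_ : Unit) => ((1 / 3 : ℝ) : ℂ) • mu (vm (32 * 2 ^ min t K)) f := by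
  have pK : 0 < 2 ^ K := by positivity
  have sub : ∀ n n' : ℕ, mu (vm n') f - mu (vm n) f = mu (fun k => vm n' k - vm n k) f :=
    fun n n' => Sp_eq (mu (vm n') - mu (vm n)) _ (fun k a1 a2 => by
      rw [LinearMap.sub_apply, mu_ch _ a1 (by omega), mu_ch _ a1 (by omega), mu_ch _ a1 (by omega),
        ← sub_smul, ofReal_sub]) hf
  have n3 : ‖((1 / 3 : ℝ) : ℂ)‖ = 1 / 3 := by rw [norm_real]; norm_num
  refine ⟨fun t t' _ _ a1 a2 => ?_, fun t z => ?_, fun t L W r θ _ a1 a2 => ?_⟩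
  · rw [min_eq_left a2, min_eq_left (a1.trans a2), ← smul_sub, sub]
    refine Submodule.smul_mem _ _ (Sp_map _ _ (fun k b1 b2 => ?_) hf)
    have := two_c t
    have := two_c t'
    have := two_le' a1
    rw [mu_ch _ b1 (by omega)]
    by_cases c1 : k ≤ 32 * 2 ^ t
    · rw [vm_lo (by positivity) (by rw [abs_of_nonneg b1]; omega),
        vm_lo (by positivity) (by rw [abs_of_nonneg b1]; omega)]
      simp
    by_cases c2 : 64 * 2 ^ t' ≤ k
    · rw [vm_hi (by positivity) (by rw [abs_of_nonneg b1]; omega),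
        vm_hi (by positivity) (by rw [abs_of_nonneg b1]; omega)]
      simp
    exact Submodule.smul_mem _ _ (ch_mem (by omega) (by omega))
  · have := two_le' (min_le_right t K)
    have := vp_le hf h1 (n := 32 * 2 ^ min t K) (by positivity) (by omega) z
    simp only [univ_unique, sum_singleton, Pi.smul_apply, norm_smul, n3]
    exact pow_le_one₀ (by positivity) (by linarith)
  rcases Nat.eq_zero_or_pos W with rfl | W0
  · simp only [range_zero, sum_empty]; positivity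
  have r1 : r ≤ 2 ^ t := (Nat.le_mul_of_pos_right r W0).trans a2
  have r2 := two_le' (by omega : t ≤ K)
  obtain ⟨w, w0, w1, w2⟩ := mu_sq (hi := r + N)
    (Sp_mono (Sp_mul (tr_mem (dk_mem (Q := Q) r) θ) hf) (by omega) (by omega)) (by omega)
  have pt : (0 : ℝ) < 2 ^ t := by positivity
  have b1 : ∀ i ∈ range W, ∑ z, ‖dk r (z - θ)‖ ^ 2 * ∑ _j : Unit,
      ‖(((1 / 3 : ℝ) : ℂ) • mu (vm (32 * 2 ^ min (t + (i + 1) * L) K)) f -
        ((1 / 3 : ℝ) : ℂ) • mu (vm (32 * 2 ^ min (t + i * L) K)) f) z‖ ^ 2 ≤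
      1 / 9 * (2 * ∑ a ∈ range Q, (vm (32 * 2 ^ (t + (i + 1) * L)) a - vm (32 * 2 ^ (t + i * L)) a)
        * w a + 2 * r ^ 2 * ((1 / 2 ^ t) ^ 2 * (Q * r))) := fun i hi => by
    have c1 : (i + 1) * L ≤ W * L := Nat.mul_le_mul_right L (mem_range.1 hi)
    have c2 : t + i * L ≤ t + (i + 1) * L := by rw [add_mul]; omega
    have c3 := two_le' c2
    have c4 := two_le' (by omega : t ≤ t + i * L)
    have c5 := comm_le hf h1 (r := r) (by omega)
      (fun k => vm (32 * 2 ^ (t + (i + 1) * L)) k - vm (32 * 2 ^ (t + i * L)) k) (l := 1 / 2 ^ t)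
      (fun k => by
        have d1 := vm_lip (n := 2 * 2 ^ t) (n' := 32 * 2 ^ (t + (i + 1) * L)) (by positivity)
          (by omega) k
        have d2 := vm_lip (n := 2 * 2 ^ t) (n' := 32 * 2 ^ (t + i * L)) (by positivity) (by omega) k
        have d3 : (1 : ℝ) / (2 * 2 ^ t : ℕ) = 1 / 2 ^ t / 2 := by push_cast; field_simp
        rw [d3, abs_le] at d1 d2
        rw [abs_le]; constructor <;> linarith [d1.1, d1.2, d2.1, d2.2]) θ
    rw [min_eq_left (by omega), min_eq_left (by omega), ← smul_sub, sub]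
    simp only [univ_unique, sum_singleton, Pi.smul_apply, norm_smul, n3, mul_pow, mul_left_comm _
      ((1 / 3 : ℝ) ^ 2), ← mul_sum]
    rw [w2] at c5
    refine mul_le_mul (by norm_num) (c5.trans (add_le_add (mul_le_mul_of_nonneg_left
      (sum_le_sum fun a _ => mul_le_mul_of_nonneg_right ?_ (w0 a)) zero_le_two) le_rfl))
      (by positivity) (by norm_num)
    have d1 := vm_mono (n := 32 * 2 ^ (t + i * L)) (n' := 32 * 2 ^ (t + (i + 1) * L))
      (by positivity) (by omega) a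
    have d2 : 0 ≤ vm (32 * 2 ^ (t + i * L)) a := le_max_left _ _
    have d3 : vm (32 * 2 ^ (t + (i + 1) * L)) a ≤ 1 := max_le zero_le_one (min_le_left _ _)
    nlinarith
  refine (sum_le_sum b1).trans ?_
  have b2 : ∑ i ∈ range W, ∑ a ∈ range Q,
      (vm (32 * 2 ^ (t + (i + 1) * L)) a - vm (32 * 2 ^ (t + i * L)) a) * w a ≤ Q * r := by
    rw [sum_comm]
    refine (sum_le_sum (g := w) fun a _ => ?_).trans (w1.symm.le.trans ?_)
    · rw [← sum_mul, sum_range_sub (fun i => vm (32 * 2 ^ (t + i * L)) a)]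
      refine mul_le_of_le_one_left (w0 a) ?_
      have d2 : 0 ≤ vm (32 * 2 ^ (t + 0 * L)) a := le_max_left _ _
      have d3 : vm (32 * 2 ^ (t + W * L)) a ≤ 1 := max_le zero_le_one (min_le_left _ _)
      linarith
    · rw [← dk_sq (by omega : r ≤ Q), ← sum_tr (fun x => ‖dk r x‖ ^ 2) θ]
      refine sum_le_sum fun z _ => pow_le_pow_left₀ (norm_nonneg _) ?_ 2
      rw [Pi.mul_apply, norm_mul]
      exact mul_le_of_le_one_right (norm_nonneg _) (h1 z)
  have b3 : (W : ℝ) * r ^ 2 * (1 / 2 ^ t) ^ 2 ≤ 1 := by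
    have d1 : (r : ℝ) * W ≤ 2 ^ t := by exact_mod_cast a2
    have d2 : (1 : ℝ) ≤ W := by exact_mod_cast W0
    rw [div_pow, one_pow, mul_one_div, div_le_one (by positivity)]
    nlinarith [pow_le_pow_left₀ (by positivity) d1 2,
      mul_le_mul_of_nonneg_left d2 (by positivity : (0 : ℝ) ≤ W * r ^ 2)]
  rw [← mul_sum, sum_add_distrib, ← mul_sum, sum_const, card_range, nsmul_eq_mul]
  nlinarith [mul_le_mul_of_nonneg_right b3 (by positivity : (0 : ℝ) ≤ Q * r),
    (by positivity : (0 : ℝ) ≤ Q * r)]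

theorem poly_le {H : Type*} [NormedAddCommGroup H] [InnerProductSpace ℂ H] [CompleteSpace H]
    {T : H →L[ℂ] H} {c γ : ℝ} (hT : ∀ k, ‖T ^ k‖ ≤ c) (hγ : 0 ≤ γ) {N K : ℕ} (hN : N ≤ 32 * 2 ^ K)
    (hP : PB (256 * 2 ^ K) T K γ) (p : Polynomial ℂ) (hp : p.natDegree ≤ N)
    (h1 : ∀ z : ℂ, ‖z‖ ≤ 1 → ‖p.eval z‖ ≤ 1) : ‖Polynomial.aeval T p‖ ≤ 3 * c * (γ + 9 * c) := by
  have pK : 0 < 2 ^ K := by positivity
  have hc : 0 ≤ c := (norm_nonneg _).trans (hT 0)
  let f : ZMod (256 * 2 ^ K) → ℂ := ∑ i ∈ range (N + 1), p.coeff i • ch i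
  have f1 : f ∈ Sp _ 0 N := Submodule.sum_mem _ fun i hi => Submodule.smul_mem _ _
    (ch_mem (by omega) (by have := mem_range.1 hi; omega))
  have f2 : ∀ z, ‖f z‖ ≤ 1 := fun z => by
    have := h1 (ch 1 z) (norm_ch 1 z).le
    rw [Polynomial.eval_eq_sum_range' (by omega : p.natDegree < N + 1)] at this
    simpa [f, Finset.sum_apply, ch_pow] using this
  have f3 : Polynomial.aeval T p = op _ T f := by
    rw [Polynomial.aeval_eq_sum_range' (by omega : p.natDegree < N + 1), map_sum]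
    refine sum_congr rfl fun i hi => ?_
    have := mem_range.1 hi
    rw [map_smul, op_ch (by omega) (by omega)]; rfl
  have f4 : mu (vm (32 * 2 ^ K)) f = f := Sp_eq _ LinearMap.id (fun k a1 a2 => by
    rw [mu_ch _ a1 (by omega), vm_lo (by positivity) (by rw [abs_of_nonneg a1]; omega)]; simp) f1
  have hX := init f1 f2 hN le_rfl
  refine ContinuousLinearMap.opNorm_le_bound _ (by positivity) fun x => ?_
  have m : ∀ k, ∑ _j : Unit, ‖(T ^ k) x‖ ^ 2 ≤ (c * ‖x‖) ^ 2 := fun k => by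
    simpa using pow_le_pow_left₀ (norm_nonneg _) ((T ^ k).le_of_opNorm_le (hT k) x) 2
  have a1 := hP Unit 0 _ (fun _ => x) (c * ‖x‖) (by rw [zero_add]) (by rw [zero_add]; exact hX)
    (by positivity) fun k _ => m k
  have a2 := lemA hT (fun _ : Unit => ((1 / 3 : ℝ) : ℂ) • mu (vm (32 * 2 ^ min 0 K)) f)
    (fun _ => x) (n := 1) (M := 64) (B := 1) (R := 9) (μ := c * ‖x‖) one_pos (by omega)
    (fun _ => Submodule.smul_mem _ _ (Sp_map _ _ (fun k b1 b2 => by
      rw [mu_ch _ b1 (by omega)]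
      by_cases c2 : 64 ≤ k
      · rw [vm_hi (by positivity) (by rw [abs_of_nonneg b1]; simpa using c2)]; simp
      · exact Submodule.smul_mem _ _ (ch_mem (by omega) (by omega))) f1))
    (fun z => by rw [one_pow]; exact hX.bd 0 z) (fun k _ => m k) (by norm_num) (by positivity)
  simp only [Yv, univ_unique, sum_singleton, one_mul, zero_add, min_self, f4, map_sub,
    _root_.sub_apply] at a1 a2
  have a3 := (norm_le_norm_sub_add _ _).trans (add_le_add a1 a2)
  rw [map_smul, _root_.smul_apply, norm_smul, norm_real, ← f3] at a3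
  norm_num at a3
  linarith

end

end Pool.Agent.MP_fe3998_an.UB
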