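import Pool.Agent.MP_fe3998_an.UB.Cyc

/-! The polynomial calculus on the cyclic group, the basic estimate and the class of rows. -/

set_option autoImplicit false

namespace Pool.Agent.MP_fe3998_an.UB

open Finset Complex

noncomputable section

variable {Q : ℕ} [NeZero Q] {H : Type*} [NormedAddCommGroup H] [InnerProductSpace ℂ H]
  {T : H →L[ℂ] H} {c : ℝ}

/-- the polynomial with the given values, applied to `T` -/
def op (Q : ℕ) [NeZero Q] (T : H →L[ℂ] H) : (ZMod Q → ℂ) →ₗ[ℂ] (H →L[ℂ] H) := syn fun k => T ^ k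

theorem op_ch {k : ℤ} (h0 : 0 ≤ k) (hk : k < Q) : op Q T (ch k) = T ^ k.toNat := syn_ch _ h0 hk

theorem op_mul {f g : ZMod Q → ℂ} {a b : ℤ} (hf : f ∈ Sp Q 0 a) (hg : g ∈ Sp Q 0 b)
    (h : a + b < Q) : op Q T (f * g) = op Q T f * op Q T g :=
  Sp_eq (op Q T ∘ₗ LinearMap.mulRight ℂ g) (LinearMap.mulRight ℂ (op Q T g) ∘ₗ op Q T)
    (fun m a1 a2 => Sp_eq (op Q T ∘ₗ LinearMap.mulLeft ℂ (ch m))
      (LinearMap.mulLeft ℂ (op Q T (ch m)) ∘ₗ op Q T) (fun n b1 b2 => by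
        simp only [LinearMap.comp_apply, LinearMap.mulLeft_apply, ← ch_add]
        rw [op_ch (by omega) (by omega), op_ch a1 (by omega), op_ch b1 (by omega), ← pow_add]
        congr 1; omega) hg) hf

theorem lemA [CompleteSpace H] (hT : ∀ k, ‖T ^ k‖ ≤ c) {ι : Type} [Fintype ι]
    (q : ι → ZMod Q → ℂ) (ξ : ι → H) {n M : ℕ} {B R μ : ℝ} (hn : 0 < n) (hQ : M + n ≤ Q)
    (hq : ∀ j, q j ∈ Sp Q (n - 1) M) (hB : ∀ z, ∑ j, ‖q j z‖ ^ 2 ≤ B ^ 2)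
    (hμ : ∀ k < n, ∑ j, ‖(T ^ k) (ξ j)‖ ^ 2 ≤ μ ^ 2) (hR : (M + 1 : ℝ) ≤ R ^ 2 * n)
    (h0 : 0 ≤ B * c * R * μ) : ‖∑ j, op Q T (q j) (ξ j)‖ ≤ B * c * R * μ := by
  set Y := ∑ j, op Q T (q j) (ξ j) with hY
  let G : ZMod Q → H := fun z =>
    ∑ b ∈ range (M + 1), ch (0 + 1 * b) z • ContinuousLinearMap.adjoint (T ^ b) Y
  let F : H → ZMod Q → H := fun x z => ∑ a ∈ range n, ch (0 + -1 * a) z • (T ^ a) x
  have key : ∀ j, (n * Q : ℂ) * inner ℂ Y (op Q T (q j) (ξ j)) =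
      ∑ z, q j z * inner ℂ (G z) (F (ξ j) z) := fun j => by
    have := Sp_eq ((n * Q : ℂ) • ((innerSL ℂ Y).toLinearMap ∘ₗ
        (ContinuousLinearMap.apply ℂ H (ξ j)).toLinearMap ∘ₗ op Q T))
      (∑ z, inner ℂ (G z) (F (ξ j) z) • LinearMap.proj z) (fun k h1 h2 => ?_) (hq j)
    · simpa [mul_comm] using this
    have e : ∀ a ∈ range n, ∑ z : ZMod Q, ∑ b ∈ range (M + 1), ch (k + -a + -b) z *
        inner ℂ Y ((T ^ (b + a)) (ξ j)) = Q * inner ℂ Y ((T ^ k.toNat) (ξ j)) := fun a ha => by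
      have := mem_range.1 ha
      rw [sum_comm, sum_eq_single (k - a).toNat]
      · rw [← sum_mul, sum_ch (by omega) (by omega), if_pos (by omega)]
        congr 4; omega
      · intro b hb hbk
        have := mem_range.1 hb
        rw [← sum_mul, sum_ch (by omega) (by omega), if_neg (by omega), zero_mul]
      · intro hb; exact (hb (mem_range.2 (by omega))).elim
    have e2 : ∀ z, inner ℂ (G z) (F (ξ j) z) * ch k z = ∑ a ∈ range n, ∑ b ∈ range (M + 1),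
        ch (k + -a + -b) z * inner ℂ Y ((T ^ (b + a)) (ξ j)) := fun z => by
      simp only [G, F, inner_sum, sum_inner, inner_smul_left, inner_smul_right, conj_ch,
        ContinuousLinearMap.adjoint_inner_left, sum_mul, mul_sum, ← ch_mul, pow_add, zero_add,
        one_mul, neg_mul, mul_apply_eq_comp]
      exact sum_congr rfl fun a _ => sum_congr rfl fun b _ => by ring
    simp only [LinearMap.smul_apply, LinearMap.comp_apply, LinearMap.sum_apply,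
      LinearMap.proj_apply, smul_eq_mul, e2]
    rw [sum_comm, sum_congr rfl e, op_ch (by omega) (by omega)]
    simp [mul_assoc]
  have hc : 0 ≤ c := (norm_nonneg _).trans (hT 0)
  have g1 : ∑ z, ‖G z‖ ^ 2 ≤ Q * ((M + 1) * (c * ‖Y‖) ^ 2) := by
    rw [pars (by omega) 0 1 (Or.inl rfl)]
    refine mul_le_mul_of_nonneg_left ((sum_le_card_nsmul _ _ ((c * ‖Y‖) ^ 2) fun b _ => ?_).trans
      (le_of_eq (by simp))) (Nat.cast_nonneg _)
    refine pow_le_pow_left₀ (norm_nonneg _) ((ContinuousLinearMap.le_opNorm _ _).trans ?_) 2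
    rw [LinearIsometryEquiv.norm_map]
    exact mul_le_mul_of_nonneg_right (hT b) (norm_nonneg _)
  have g2 : ∑ p : ZMod Q × ι, ‖F (ξ p.2) p.1‖ ^ 2 ≤ Q * (n * μ ^ 2) := by
    rw [Fintype.sum_prod_type_right,
      sum_congr rfl fun j _ => pars (by omega) 0 (-1) (Or.inr rfl) fun a => (T ^ a) (ξ j),
      ← mul_sum, sum_comm]
    exact mul_le_mul_of_nonneg_left ((sum_le_card_nsmul _ _ (μ ^ 2) fun a ha =>
      hμ a (mem_range.1 ha)).trans (le_of_eq (by simp))) (Nat.cast_nonneg _)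
  have g3 : ∑ p : ZMod Q × ι, (‖q p.2 p.1‖ * ‖G p.1‖) ^ 2 ≤
      B ^ 2 * (Q * ((M + 1) * (c * ‖Y‖) ^ 2)) := by
    rw [Fintype.sum_prod_type]
    refine le_trans (sum_le_sum fun z _ => ?_) ((mul_sum _ _ _).symm.le.trans
      (mul_le_mul_of_nonneg_left g1 (sq_nonneg B)))
    simp only [mul_pow, ← sum_mul]
    exact mul_le_mul_of_nonneg_right (hB z) (sq_nonneg _)
  have g4 : n * Q * ‖Y‖ ^ 2 ≤ ∑ p : ZMod Q × ι, (‖q p.2 p.1‖ * ‖G p.1‖) * ‖F (ξ p.2) p.1‖ := by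
    have : (n * Q : ℂ) * inner ℂ Y Y = ∑ j, ∑ z, q j z * inner ℂ (G z) (F (ξ j) z) := by
      rw [← sum_congr rfl fun j _ => key j, ← mul_sum, ← inner_sum]
    have h2 := congrArg norm this
    rw [inner_self_eq_norm_sq_to_K, norm_mul, norm_mul, Complex.norm_natCast, Complex.norm_natCast,
      norm_pow, RCLike.norm_ofReal, abs_norm] at h2
    rw [h2, Fintype.sum_prod_type_right]
    refine (norm_sum_le _ _).trans (sum_le_sum fun j _ => (norm_sum_le _ _).trans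
      (sum_le_sum fun z _ => ?_))
    rw [norm_mul, mul_assoc]
    exact mul_le_mul_of_nonneg_left (norm_inner_le_norm _ _) (norm_nonneg _)
  have g5 := (pow_le_pow_left₀ (by positivity) g4 2).trans ((sum_mul_sq_le_sq_mul_sq _ _ _).trans
    (mul_le_mul g3 g2 (sum_nonneg fun _ _ => sq_nonneg _) (by positivity)))
  have p : (0 : ℝ) < n * Q := mul_pos (by exact_mod_cast hn) Qpos
  have g6 : (n * Q * ‖Y‖ ^ 2) ^ 2 ≤ (n * Q * (B * c * R * μ * ‖Y‖)) ^ 2 := by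
    refine g5.trans (le_trans (le_of_eq ?_) ((mul_le_mul_of_nonneg_right hR
      (by positivity : 0 ≤ n * (Q * B * c * μ * ‖Y‖) ^ 2)).trans (le_of_eq ?_))) <;> ring
  have g7 := le_of_mul_le_mul_left ((abs_le_of_sq_le_sq' g6 (by positivity)).2) p
  rcases (norm_nonneg Y).eq_or_lt with h | h
  · rw [← h]; exact h0
  · exact le_of_mul_le_mul_right (by rwa [← sq]) h

/-- the class of rows on the levels from `a` to `b` -/
structure Cls {ι : Type} [Fintype ι] (a b : ℕ) (X : ℕ → ι → ZMod Q → ℂ) : Prop where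
  sp : ∀ t t' j, a ≤ t → t ≤ t' → t' ≤ b →
    X t' j - X t j ∈ Sp Q (32 * 2 ^ t - 16 * 2 ^ a) (64 * 2 ^ t' + 16 * 2 ^ a)
  bd : ∀ t z, ∑ j, ‖X t j z‖ ^ 2 ≤ 1
  car : ∀ t L W r θ, a ≤ t → t + W * L ≤ b → r * W ≤ 2 ^ t → ∑ i ∈ range W, ∑ z,
    ‖dk r (z - θ)‖ ^ 2 * ∑ j, ‖(X (t + (i + 1) * L) j - X (t + i * L) j) z‖ ^ 2 ≤ Q * r

/-- the part of the calculus that comes from the levels between `t` and `t'` -/
def Yv {ι : Type} [Fintype ι] (T : H →L[ℂ] H) (X : ℕ → ι → ZMod Q → ℂ) (ξ : ι → H)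
    (χ : ZMod Q → ℂ) (t t' : ℕ) : H := ∑ j, op Q T (χ * (X t' j - X t j)) (ξ j)

/-- the bound `γ` holds for all windows of `K` levels -/
def PB (Q : ℕ) [NeZero Q] (T : H →L[ℂ] H) (K : ℕ) (γ : ℝ) : Prop :=
  ∀ (ι : Type) [Fintype ι] (a : ℕ) (X : ℕ → ι → ZMod Q → ℂ) (ξ : ι → H) (μ : ℝ),
    256 * 2 ^ (a + K) ≤ Q → Cls a (a + K) X → 0 ≤ μ →
    (∀ k ≤ 2 ^ (a + K), ∑ j, ‖(T ^ k) (ξ j)‖ ^ 2 ≤ μ ^ 2) → ‖Yv T X ξ 1 a (a + K)‖ ≤ γ * μ

theorem two_le {a b : ℕ} (h : a ≤ b) : (2 : ℤ) ^ a ≤ 2 ^ b := pow_le_pow_right₀ one_le_two h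

theorem two_le' {a b : ℕ} (h : a ≤ b) : 2 ^ a ≤ 2 ^ b := Nat.pow_le_pow_right two_pos h

variable {ι : Type} [Fintype ι] {a b : ℕ} {X : ℕ → ι → ZMod Q → ℂ} {ξ : ι → H}

theorem Cls.diff (h : Cls a b X) (t t' : ℕ) (z : ZMod Q) :
    ∑ j, ‖(X t' j - X t j) z‖ ^ 2 ≤ 2 ^ 2 := by
  have : ∀ j, ‖(X t' j - X t j) z‖ ^ 2 ≤ 2 * ‖X t' j z‖ ^ 2 + 2 * ‖X t j z‖ ^ 2 := fun j => by
    have := pow_le_pow_left₀ (norm_nonneg _) (norm_sub_le (X t' j z) (X t j z)) 2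
    rw [Pi.sub_apply]
    nlinarith [sq_nonneg (‖X t' j z‖ - ‖X t j z‖)]
  refine (sum_le_sum fun j _ => this j).trans ?_
  rw [sum_add_distrib, ← mul_sum, ← mul_sum]
  linarith [h.bd t z, h.bd t' z]

theorem Yv_add (χ : ZMod Q → ℂ) (t t' t'' : ℕ) :
    Yv T X ξ χ t t' + Yv T X ξ χ t' t'' = Yv T X ξ χ t t'' := by
  simp only [Yv, ← sum_add_distrib, ← _root_.add_apply, ← map_add, ← mul_add]
  exact sum_congr rfl fun j _ => by rw [add_comm, sub_add_sub_cancel]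

theorem loc {κ : Type} [Fintype κ] {K s a' : ℕ} {γ μ : ℝ} (hP : PB Q T K γ) (hX : Cls a b X)
    (hQ : 256 * 2 ^ b ≤ Q) (ha : a ≤ a') (hb : a' + K ≤ b) (hs : 16 * 2 ^ a + s ≤ 16 * 2 ^ a')
    (g h : κ → ZMod Q → ℂ) (hg : ∀ θ, g θ ∈ Sp Q 0 s) (hh : ∀ θ, h θ ∈ Sp Q (-s) s)
    (h1 : ∀ z, ∑ θ, ‖h θ z‖ ^ 2 ≤ 1) (h0 : 0 ≤ μ)
    (hμ : ∀ k ≤ 2 ^ (a' + K), ∑ θ, ∑ j, ‖(T ^ k) (op Q T (g θ) (ξ j))‖ ^ 2 ≤ μ ^ 2) :
    ‖Yv T X ξ (∑ θ, h θ * g θ) a' (a' + K)‖ ≤ γ * μ := by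
  have z1 : (16 : ℤ) * 2 ^ a + s ≤ 16 * 2 ^ a' := by exact_mod_cast hs
  have z2 : (256 : ℤ) * 2 ^ b ≤ Q := by exact_mod_cast hQ
  have z3 := two_le hb
  have z4 := two_le (by omega : a' ≤ a' + K)
  have z5 : (0 : ℤ) < 2 ^ a := by positivity
  have sp : ∀ t t' (p : κ × ι), a' ≤ t → t ≤ t' → t' ≤ a' + K → h p.1 * (X t' p.2 - X t p.2) ∈
      Sp Q (32 * 2 ^ t - 16 * 2 ^ a') (64 * 2 ^ t' + 16 * 2 ^ a') := fun t t' p a1 a2 a3 =>
    Sp_mono (Sp_mul (hh p.1) (hX.sp t t' p.2 (by omega) a2 (by omega))) (by omega) (by omega)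
  have row : ∀ (f : ι → ZMod Q → ℂ) z,
      ∑ p : κ × ι, ‖(h p.1 * f p.2) z‖ ^ 2 ≤ ∑ j, ‖f j z‖ ^ 2 := fun f z => by
    simp only [Fintype.sum_prod_type, Pi.mul_apply, norm_mul, mul_pow, ← mul_sum, ← sum_mul]
    exact mul_le_of_le_one_left (sum_nonneg fun _ _ => sq_nonneg _) (h1 z)
  have := hP (κ × ι) a' (fun t p => h p.1 * X t p.2) (fun p => op Q T (g p.1) (ξ p.2)) μ
    ((Nat.mul_le_mul_left _ (two_le' hb)).trans hQ)
    ⟨fun t t' p a1 a2 a3 => by rw [← mul_sub]; exact sp t t' p a1 a2 a3,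
      fun t z => (row (X t) z).trans (hX.bd t z), fun t L W r θ a1 a2 a3 => ?_⟩ h0
    fun k hk => by rw [Fintype.sum_prod_type]; exact hμ k hk
  · refine le_trans (le_of_eq (congrArg norm ?_)) this
    simp only [Yv, one_mul, ← mul_sub, sum_mul, map_sum, _root_.sum_apply]
    rw [Fintype.sum_prod_type_right]
    refine sum_congr rfl fun j _ => sum_congr rfl fun θ _ => ?_
    rw [mul_right_comm, op_mul (Sp_mono (sp a' (a' + K) (θ, j) le_rfl (by omega) le_rfl)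
      (by omega) le_rfl) (hg θ) (by omega), mul_apply_eq_comp]
  · refine le_trans (sum_le_sum fun i _ => sum_le_sum fun z _ =>
      mul_le_mul_of_nonneg_left ?_ (sq_nonneg _)) (hX.car t L W r θ (by omega) (by omega) a3)
    simp only [← mul_sub]
    exact row (fun j => X (t + (i + 1) * L) j - X (t + i * L) j) z

theorem loc_one {K s a' : ℕ} {γ μ B : ℝ} (hP : PB Q T K γ) (hX : Cls a b X)
    (hQ : 256 * 2 ^ b ≤ Q) (ha : a ≤ a') (hb : a' + K ≤ b) (hs : 16 * 2 ^ a + s ≤ 16 * 2 ^ a')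
    {χ : ZMod Q → ℂ} (hχ : χ ∈ Sp Q (-s) s) (hB : 0 < B) (h1 : ∀ z, ‖χ z‖ ≤ B) (h0 : 0 ≤ μ)
    (hμ : ∀ k ≤ 2 ^ b, ∑ j, ‖(T ^ k) (ξ j)‖ ^ 2 ≤ μ ^ 2) :
    ‖Yv T X ξ χ a' (a' + K)‖ ≤ B * (γ * μ) := by
  have o : op Q T 1 = 1 := by
    rw [← ch_zero, op_ch le_rfl (by exact_mod_cast NeZero.pos Q)]; rfl
  have := loc (ξ := ξ) hP hX hQ ha hb hs (fun _ : Unit => 1) (fun _ => ((B⁻¹ : ℝ) : ℂ) • χ)
    (fun _ => one_mem le_rfl (by omega)) (fun _ => Submodule.smul_mem _ _ hχ) (fun z => ?_) h0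
    fun k hk => by simpa [o] using hμ k (hk.trans (two_le' hb))
  · simp only [Yv, univ_unique, sum_singleton, mul_one, smul_mul_assoc, map_smul,
      _root_.smul_apply, ← smul_sum, norm_smul, norm_real, Real.norm_of_nonneg (inv_pos.2 hB).le]
      at this
    exact (inv_mul_le_iff₀ hB).1 this
  · simp only [univ_unique, sum_singleton, Pi.smul_apply, norm_smul, norm_real,
      Real.norm_of_nonneg (inv_pos.2 hB).le]
    exact pow_le_one₀ (by positivity) ((inv_mul_le_iff₀ hB).2 (by rw [mul_one]; exact h1 z))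

theorem win {K a' : ℕ} {γ μ : ℝ} (hP : PB Q T K γ) (hX : Cls a b X)
    (hQ : 256 * 2 ^ b ≤ Q) (ha : a ≤ a') (hb : a' + K ≤ b) (h0 : 0 ≤ μ)
    (hμ : ∀ k ≤ 2 ^ b, ∑ j, ‖(T ^ k) (ξ j)‖ ^ 2 ≤ μ ^ 2) :
    ‖Yv T X ξ 1 a' (a' + K)‖ ≤ γ * μ := by
  have := two_le' ha
  simpa using loc_one (s := 0) hP hX hQ ha hb (by omega) (one_mem (by simp) (by simp)) one_pos
    (by simp) h0 hμ

theorem Yv_sum_le {L W t : ℕ} (f : ℕ → ℝ)
    (h : ∀ i < W, ‖Yv T X ξ 1 (t + i * L) (t + (i + 1) * L)‖ ≤ f i) :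
    ‖Yv T X ξ 1 t (t + W * L)‖ ≤ ∑ i ∈ range W, f i := by
  induction W with
  | zero => simp [Yv]
  | succ W ih =>
    rw [sum_range_succ, ← Yv_add 1 t (t + W * L)]
    exact (norm_add_le _ _).trans (add_le_add (ih fun i hi => h i (by omega)) (h W (by omega)))

theorem PB.mul {L : ℕ} {γ : ℝ} (hP : PB Q T L γ) (W : ℕ) : PB Q T (W * L) (W * γ) := by
  intro ι _ a X ξ μ hQ hX h0 hμ
  refine (Yv_sum_le (fun _ => γ * μ) fun i hi => ?_).trans (le_of_eq (by simp [mul_assoc]))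
  have := Nat.mul_le_mul_right L (by omega : i + 1 ≤ W)
  rw [add_mul, one_mul, ← add_assoc]
  exact win hP hX hQ (by omega) (by rw [add_mul] at this; omega) h0 hμ

theorem PB.mono {L : ℕ} {γ γ' : ℝ} (hP : PB Q T L γ) (h : γ ≤ γ') : PB Q T L γ' :=
  fun ι _ a X ξ μ hQ hX h0 hμ => (hP ι a X ξ μ hQ hX h0 hμ).trans
    (mul_le_mul_of_nonneg_right h h0)

theorem PB.base [CompleteSpace H] (hT : ∀ k, ‖T ^ k‖ ≤ c) : PB Q T 1 (26 * c) := by
  intro ι _ a X ξ μ hQ hX h0 hμ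
  have hc : 0 ≤ c := (norm_nonneg _).trans (hT 0)
  have p : 0 < 2 ^ a := by positivity
  have p' : (0 : ℤ) < 2 ^ a := by positivity
  have p'' : (1 : ℝ) ≤ 2 ^ a := one_le_pow₀ one_le_two
  simp only [Yv, one_mul]
  refine (lemA hT _ ξ (n := 2 ^ a) (M := 144 * 2 ^ a) (R := 13) p (by omega)
    (fun j => Sp_mono (hX.sp a (a + 1) j le_rfl (by omega) le_rfl) (by push_cast; omega)
      (by push_cast; omega)) (hX.diff _ _) (fun k hk => hμ k (by omega))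
    (by push_cast; linarith) (by positivity)).trans (le_of_eq (by ring))

end

end Pool.Agent.MP_fe3998_an.UB
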