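import Pool.Agent.MP_fe3998_an.UB.Cut

/-! The gain in a nearly extremal configuration and its iteration. -/

set_option autoImplicit false

namespace Pool.Agent.MP_fe3998_an.UB

open Finset Complex

noncomputable section

variable {Q : ℕ} [NeZero Q] {H : Type*} [NormedAddCommGroup H] [InnerProductSpace ℂ H]
  {T : H →L[ℂ] H} {c : ℝ} {ι : Type} [Fintype ι] {a b : ℕ} {X : ℕ → ι → ZMod Q → ℂ} {ξ : ι → H}

/-- `Yv` as a linear map of the multiplier -/
def YL (T : H →L[ℂ] H) (X : ℕ → ι → ZMod Q → ℂ) (ξ : ι → H) (t t' : ℕ) : (ZMod Q → ℂ) →ₗ[ℂ] H where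
  toFun χ := Yv T X ξ χ t t'
  map_add' f g := by simp [Yv, add_mul, sum_add_distrib]
  map_smul' k f := by simp [Yv, smul_sum]

theorem two_c (a : ℕ) : (2 : ℤ) ^ a = (2 ^ a : ℕ) := by push_cast; rfl

theorem star_le (ν : (ZMod Q → ℂ) →ₗ[ℂ] ℂ) {d : ℤ} {γ ρ B : ℝ} (hd : 0 ≤ d) (hρ : 0 < ρ)
    (hB : 0 < B) (h1 : ∀ χ ∈ Sp Q (-d) d, ∀ B, 0 < B → (∀ z, ‖χ z‖ ≤ B) → ‖ν χ‖ ≤ B * γ)
    (h2 : γ * (1 - ρ ^ 2) ≤ (ν 1).re) {m : ZMod Q → ℂ} (hm : m ∈ Sp Q (-d) d)
    (hb : ∀ z, ‖m z‖ ≤ B) : (ν (star m)).re ≤ (ν m).re + 3 * ρ * γ * B := by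
  have := (re_le_norm _).trans (h1 (1 - ((ρ / B / 2 : ℝ) : ℂ) • (m - star m))
    (sub_mem (one_mem (by omega) hd) (Submodule.smul_mem _ _
      (sub_mem hm (Sp_mono (Sp_star hm) le_rfl (by omega))))) (1 + ρ ^ 2 / 2) (by positivity)
    fun z => ?_)
  · rw [map_sub, map_smul, map_sub, sub_re, smul_eq_mul, re_ofReal_mul, sub_re] at this
    have h3 : ρ / B / 2 * ((ν (star m)).re - (ν m).re) ≤ ρ / B / 2 * (3 * ρ * γ * B) := by
      have : ρ / B / 2 * (3 * ρ * γ * B) = 3 / 2 * ρ ^ 2 * γ := by field_simp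
      linarith
    linarith [le_of_mul_le_mul_left h3 (by positivity)]
  · refine (abs_le_of_sq_le_sq' ?_ (by positivity)).2
    have h3 : (ρ / B * (m z).im) ^ 2 ≤ ρ ^ 2 := by
      have := sq_le_sq' (abs_le.1 ((abs_im_le_norm _).trans (hb z))).1
        (abs_le.1 ((abs_im_le_norm _).trans (hb z))).2
      rw [mul_pow, div_pow, div_mul_eq_mul_div, div_le_iff₀ (by positivity)]
      exact mul_le_mul_of_nonneg_left this (sq_nonneg _)
    rw [Complex.sq_norm, normSq_apply]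
    simp only [Pi.sub_apply, Pi.one_apply, Pi.smul_apply, Pi.star_apply, star_def, smul_eq_mul,
      sub_re, sub_im, one_re, one_im, re_ofReal_mul, im_ofReal_mul, conj_re, conj_im]
    nlinarith [sq_nonneg (ρ ^ 2)]

theorem sub_window [CompleteSpace H] (hT : ∀ k, ‖T ^ k‖ ≤ c) (hc : 1 ≤ c) {K L W n s t4 : ℕ}
    {γ γL ρ : ℝ} (hγ : 0 < γ) (hγL : 1 ≤ γL) (hP : PB Q T K γ) (hL : PB Q T L γL) (hX : Cls a b X)
    (hQ : 256 * 2 ^ b ≤ Q) (hK : 3 ≤ K) (hs : a + K ≤ s) (h4 : s + W * L ≤ t4) (hb : t4 + K ≤ b)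
    (hn : 2 * n * W = 2 ^ s) (hμ : ∀ k ≤ 2 ^ b, ∑ j, ‖(T ^ k) (ξ j)‖ ^ 2 ≤ 1 ^ 2) (η : H)
    (hη : ‖η‖ = 1) (hρ : 0 < ρ) (h14 : ‖Yv T X ξ 1 t4 (t4 + K) - Yv T X ξ 1 a (a + K)‖ ≤ 2 * ρ * γ)
    (hre : γ * (1 - ρ ^ 2) ≤ (inner ℂ η (Yv T X ξ 1 t4 (t4 + K))).re)
    (hW : 2 ^ 39 * c ^ 6 * 8 ^ L ≤ W) (hρR : 224 * c ^ 2 * (16 * W * 2 ^ (W * L)) ^ 2 * ρ ≤ 1)
    (hγR : 128 * c * (16 * W * 2 ^ (W * L)) ^ 2 ≤ γ) :
    ‖Yv T X ξ 1 s (s + W * L)‖ ≤ W * γL * (1 - 3 / (16 * c ^ 2)) := by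
  have c0 : 0 < c := by linarith
  have n0 : 0 < n := by
    rcases n with _ | n
    · have : 0 < 2 ^ s := by positivity
      omega
    · omega
  have W0 : 0 < W := by
    rcases W with _ | W
    · have : 0 < 2 ^ s := by positivity
      omega
    · omega
  have z1 := two_le' h4
  have z2 := two_le' (by omega : t4 + 3 ≤ b)
  have z3 := two_le' (by omega : s ≤ s + W * L)
  have z4 := two_le' (by omega : a + 1 ≤ s)
  have z5 := two_le hs
  have z6 : (0 : ℤ) < 2 ^ a := by positivity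
  have z7 : 2 * n ≤ 2 ^ s := hn ▸ Nat.le_mul_of_pos_right _ W0
  have z8 := two_le (by omega : a ≤ a + K)
  have z9 := two_le hb
  have z10 := two_le (by omega : a ≤ t4)
  have z11 := two_c b
  have z12 := two_c s
  rw [pow_add 2 t4] at z2
  have n1 : (1 : ℝ) ≤ n := by exact_mod_cast n0
  have W1 : (1 : ℝ) ≤ W := by exact_mod_cast W0
  have e2 : (2 : ℝ) ^ s = 2 * n * W := by exact_mod_cast hn.symm
  have E1 : (1 : ℝ) ≤ 2 ^ (W * L) := one_le_pow₀ one_le_two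
  set R : ℝ := 16 * W * 2 ^ (W * L) with hR
  have R1 : 1 ≤ R := by nlinarith
  let ν : (ZMod Q → ℂ) →ₗ[ℂ] ℂ := (innerSL ℂ η).toLinearMap ∘ₗ YL T X ξ t4 (t4 + K)
  have ν0 : ∀ χ, ‖ν χ‖ ≤ ‖Yv T X ξ χ t4 (t4 + K)‖ := fun χ =>
    (norm_inner_le_norm (𝕜 := ℂ) η _).trans (by rw [hη, one_mul]; rfl)
  have ν1 : ∀ χ ∈ Sp Q (-(4 * 2 ^ (s + W * L) : ℕ)) (4 * 2 ^ (s + W * L) : ℕ), ∀ B, 0 < B →
      (∀ z, ‖χ z‖ ≤ B) → ‖ν χ‖ ≤ B * γ := fun χ h1 B h2 h3 => (ν0 χ).trans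
    ((loc_one hP hX hQ (by omega) hb (by omega) h1 h2 h3 zero_le_one hμ).trans (by rw [mul_one]))
  set τ : ℝ := (2 ^ 25 * c ^ 6 * 8 ^ L)⁻¹ with hτ
  have τ0 : 0 < τ := by positivity
  let N : ℕ → ZMod Q → ℝ := fun i z => ∑ j, ‖(X (s + (i + 1) * L) j - X (s + i * L) j) z‖ ^ 2
  let A : ℕ → Finset (ZMod Q) := fun i => act (N i) (2 ^ (s + i * L)) τ
  have lv : ∀ i < W, s + (i + 1) * L ≤ s + W * L := fun i hi =>
    Nat.add_le_add_left (Nat.mul_le_mul_right L hi) s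
  have lw : ∀ i, s + (i + 1) * L = s + i * L + L := fun i => by ring
  have lq : ∀ i < W, 2 ^ (s + i * L) ≤ 2 ^ (s + W * L) := fun i hi =>
    two_le' (by have := lv i hi; have := lw i; omega)
  set S : ZMod Q → ℂ := ∑ i ∈ range W, chi (A i) (2 ^ (s + i * L)) with hS
  have S1 : ∀ z, ‖S z‖ ≤ ∑ i ∈ range W, chiR (A i) (2 ^ (s + i * L)) z := fun z => by
    rw [hS, Finset.sum_apply]
    exact (norm_sum_le _ _).trans (le_of_eq (sum_congr rfl fun i _ => by
      rw [chi, norm_real, Real.norm_of_nonneg (chiR_nonneg _ _ _)]))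
  have S2 : ∀ r ≤ 2 * n, ∀ z, ‖fe r S z‖ ≤ r * (W / 48) := fun r hr z => by
    refine fe_le z (le_of_mul_le_mul_left ?_ τ0)
    have b1 := hX.car s L W r z (by omega) (by omega) (hn ▸ Nat.mul_le_mul_right W hr)
    have b2 : ∀ i ∈ range W, τ * ∑ θ, ‖dk r θ‖ ^ 2 * chiR (A i) (2 ^ (s + i * L)) (z - θ) ≤
        2 * ∑ x, ‖dk r (x - z)‖ ^ 2 * N i x + 320 * Q * r / W := fun i hi => by
      have := lq i (mem_range.1 hi)
      refine (car_block (N i) (fun _ => sum_nonneg fun _ _ => sq_nonneg _) (hX.diff _ _)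
        (by positivity) (by omega) (by omega) z).trans (add_le_add le_rfl ?_)
      have b3 : (r : ℝ) * W ≤ (2 ^ (s + i * L) : ℕ) := by
        exact_mod_cast (Nat.mul_le_mul_right W hr).trans (hn.le.trans (two_le' (by omega)))
      have b4 := pow_le_pow_left₀ (by positivity) b3 2
      rw [div_le_div_iff₀ (by positivity) (by positivity)]
      have b5 : (r : ℝ) ^ 2 * W ≤ (r * W) ^ 2 := by nlinarith [mul_nonneg (sq_nonneg (r : ℝ)) (by linarith : (0 : ℝ) ≤ W)]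
      nlinarith [mul_le_mul_of_nonneg_left (b5.trans b4) (by positivity : (0 : ℝ) ≤ 320 * Q * r)]
    have b6 := sum_le_sum b2
    rw [← mul_sum, sum_comm, sum_add_distrib, ← mul_sum, sum_const, card_range, nsmul_eq_mul,
      mul_div_cancel₀ _ (by positivity)] at b6
    have b7 : 2 ^ 14 ≤ τ * W := by
      rw [hτ, le_inv_mul_iff₀ (by positivity)]; linarith
    refine (mul_le_mul_of_nonneg_left (sum_le_sum fun θ _ => ?_) τ0.le).trans (b6.trans ?_)
    · rw [← mul_sum]; exact mul_le_mul_of_nonneg_left (S1 _) (sq_nonneg _)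
    · nlinarith [mul_le_mul_of_nonneg_left b7 (by positivity : (0 : ℝ) ≤ Q * r),
        (by positivity : (0 : ℝ) ≤ Q * r)]
  have S3 : S ∈ Sp Q (-(4 * 2 ^ (s + W * L) : ℕ)) (4 * 2 ^ (s + W * L) : ℕ) :=
    Submodule.sum_mem _ fun i hi => by
      have := lq i (mem_range.1 hi)
      exact Sp_mono (chi_mem _ _) (by omega) (by omega)
  obtain ⟨m, m1, m2, m3⟩ := split_vp (n := n) (B := W) (by omega) (by omega) S3
    (by rw [hS, star_sum]; exact sum_congr rfl fun i _ => funext fun z => conj_ofReal _)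
    fun z => (S1 z).trans ((sum_le_card_nsmul _ _ 1 fun i hi => by
      have := lq i (mem_range.1 hi)
      linarith [chiR_compl (A i) (n := 2 ^ (s + i * L)) (by positivity) (by omega) z,
        chiR_nonneg (A i)ᶜ (2 ^ (s + i * L)) z]).trans (by simp))
  have e3 : 2 * ((4 * 2 ^ (s + W * L) : ℕ) : ℝ) * W = n * W * R := by
    push_cast; rw [pow_add, e2, hR]; ring
  rw [e3] at m2
  have m4 := Sp_mono m1 (by omega : -((4 * 2 ^ (s + W * L) : ℕ) : ℤ) ≤ n) le_rfl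
  have m5 := Sp_mono m1 (by omega : (0 : ℤ) ≤ n) le_rfl
  have hM : ((127 * 2 ^ (s + W * L) : ℕ) : ℝ) + 1 ≤ R ^ 2 * n := by
    have : (1 : ℝ) ≤ W * 2 ^ (W * L) := by nlinarith
    have h3 : (1 : ℝ) ≤ n * (W * 2 ^ (W * L)) := by nlinarith
    push_cast; rw [pow_add, e2, hR]
    nlinarith [mul_le_mul_of_nonneg_left this (by linarith : (0 : ℝ) ≤ n * (W * 2 ^ (W * L)))]
  have Ym : ∀ t, a ≤ t → t + K ≤ b →
      Yv T X ξ m t (t + K) = op Q T m (Yv T X ξ 1 t (t + K)) := fun t h1 h2 => by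
    have := two_le h1
    have := two_le h2
    have := two_le (by omega : a ≤ b)
    simp only [Yv, one_mul, map_sum]
    exact sum_congr rfl fun j _ => by
      rw [op_mul m5 (Sp_mono (hX.sp t (t + K) j h1 (by omega) h2) (by omega) le_rfl) (by omega),
        mul_apply_eq_comp]
  have f1 : ‖op Q T m (Yv T X ξ 1 t4 (t4 + K) - Yv T X ξ 1 a (a + K))‖ ≤
      n * W * R * c * R * (c * (2 * ρ * γ)) := by
    simpa using lemA hT (fun _ : Unit => m)
      (fun _ => Yv T X ξ 1 t4 (t4 + K) - Yv T X ξ 1 a (a + K)) (n := n)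
      (M := 127 * 2 ^ (s + W * L)) (B := n * W * R) (μ := c * (2 * ρ * γ)) n0 (by omega)
      (fun _ => Sp_mono m1 (by omega) (by omega))
      (fun z => by simpa using pow_le_pow_left₀ (norm_nonneg _) (m2 z) 2)
      (fun k _ => by
        simpa using pow_le_pow_left₀ (norm_nonneg _) (((T ^ k).le_of_opNorm_le (hT k) _).trans
          (mul_le_mul_of_nonneg_left h14 c0.le)) 2) hM (by positivity)
  have f2 : ‖Yv T X ξ m a (a + K)‖ ≤ n * W * R * 2 * c * R * 1 :=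
    lemA hT _ ξ (n := n) (M := 127 * 2 ^ (s + W * L)) n0 (by omega)
      (fun j => Sp_mono (Sp_mul m1 (hX.sp a (a + K) j le_rfl (by omega) (by omega))) (by omega)
        (by omega))
      (fun z => by
        simp only [Pi.mul_apply, norm_mul, mul_pow _ _ 2, ← mul_sum]
        rw [← mul_pow, ← mul_pow]
        exact mul_le_mul (pow_le_pow_left₀ (norm_nonneg _) (m2 z) 2) (hX.diff _ _ z)
          (sum_nonneg fun _ _ => sq_nonneg _) (sq_nonneg _))
      (fun k hk => hμ k (by omega)) hM (by positivity)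
  have f3 : (ν m).re ≤ n * W * R * c * R * (c * (2 * ρ * γ)) + n * W * R * 2 * c * R * 1 := by
    refine (re_le_norm _).trans ((ν0 m).trans (le_trans ?_ (add_le_add f1 f2)))
    rw [map_sub, Ym t4 (by omega) hb, Ym a le_rfl (by omega)]
    exact norm_le_norm_sub_add _ _
  have f4 := star_le ν (by omega) hρ (by positivity) ν1 hre m4 m2
  have f5 : (ν (fe (2 * n) S - fe n S)).re ≤ n * W / 16 * γ := by
    refine (re_le_norm _).trans (ν1 _ ?_ _ (by positivity) fun z => ?_)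
    · rw [show fe (2 * n) S - fe n S = (n : ℂ) • S - m - star m by rw [m3]; abel]
      exact sub_mem (sub_mem (Submodule.smul_mem _ _ S3) m4) (Sp_mono (Sp_star m4) le_rfl (by omega))
    · have := S2 (2 * n) le_rfl z
      have := S2 n (by omega) z
      refine (norm_sub_le _ _).trans ?_
      push_cast at *
      linarith
  have f6 : (ν S).re ≤ W / 8 * γ := by
    have := congrArg (fun f => (ν f).re) m3
    simp only [map_smul, map_add, add_re, smul_eq_mul, ← ofReal_natCast, re_ofReal_mul] at this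
    refine le_of_mul_le_mul_left ?_ (by linarith : (0 : ℝ) < n)
    have p : (0 : ℝ) ≤ n * W := by positivity
    have g1 : R * ρ ≤ c ^ 2 * R ^ 2 * ρ := by
      have : R ≤ c ^ 2 * R ^ 2 := by nlinarith [mul_le_mul (one_le_pow₀ (n := 2) hc) R1 zero_le_one (sq_nonneg c)]
      exact mul_le_mul_of_nonneg_right this hρ.le
    linarith [mul_le_mul_of_nonneg_left hρR (mul_nonneg p hγ.le), mul_le_mul_of_nonneg_left hγR p,
      mul_le_mul_of_nonneg_left g1 (mul_nonneg p hγ.le)]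
  have cc : ∀ i < W, chi (A i) (2 ^ (s + i * L)) + chi (A i)ᶜ (2 ^ (s + i * L)) = 1 := fun i hi => by
    have := lq i hi
    funext z
    rw [Pi.add_apply, chi, chi, ← ofReal_add, chiR_compl _ (by positivity) (by omega)]; rfl
  refine (Yv_sum_le (fun i => γL * (1 - (((ν 1).re - (ν (chi (A i) (2 ^ (s + i * L)))).re) / γ
    - 1 / 4) / (2 * c ^ 2)) + 1 / (16 * c ^ 2)) fun i hi => ?_).trans ?_
  · have g1 := cut_gain hT c0 hγ hP hL hX hQ (by omega : a < s + i * L)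
      (by have := lv i hi; have := lw i; omega : s + i * L + L ≤ t4) hb hK hμ (A i)
    have g2 := cut_small hT (τ := τ) (B := (256 * c ^ 3 * 2 ^ L)⁻¹) hX hQ (by omega : a ≤ s + i * L)
      (by have := lv i hi; have := lw i; omega : s + i * L + L ≤ b) τ0.le (by positivity)
      (le_of_eq (by rw [hτ, show (8 : ℝ) = 2 ^ 3 by norm_num, ← pow_mul, mul_comm 3, pow_mul]
                    field_simp; norm_num)) hμ
    rw [← lw] at g1 g2
    have g3 := (re_le_norm _).trans (ν0 (chi (A i)ᶜ (2 ^ (s + i * L))))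
    rw [← cc i hi, map_add, add_re, add_sub_cancel_left]
    refine ((map_add (YL T X ξ _ _) _ _) ▸ norm_add_le _ _ : ‖YL T X ξ _ _ _‖ ≤ _).trans
      (add_le_add (g1.trans (mul_le_mul_of_nonneg_left ?_ (by linarith)))
        (g2.trans (le_of_eq (by field_simp; norm_num))))
    have g4 := div_le_div_of_nonneg_right g3 hγ.le
    rw [← div_div]
    generalize ‖Yv T X ξ (chi (A i)ᶜ (2 ^ (s + i * L))) t4 (t4 + K)‖ / γ = y at *
    rw [div_pow, div_div, mul_comm (c ^ 2)]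
    exact sub_le_sub_left (div_le_div_of_nonneg_right (by nlinarith [sq_nonneg (y - 1 / 2)])
      (by positivity)) 1
  · have g1 : ∑ i ∈ range W, (ν (chi (A i) (2 ^ (s + i * L)))).re = (ν S).re := by
      rw [hS, map_sum, re_sum]
    simp only [sum_add_distrib, ← mul_sum, sum_sub_distrib, ← sum_div, sum_const, card_range,
      nsmul_eq_mul, g1]
    have g2 : ρ ≤ 1 / 8 := by
      nlinarith [mul_le_mul_of_nonneg_right (one_le_mul_of_one_le_of_one_le
        (one_le_pow₀ (n := 2) hc) (one_le_pow₀ (n := 2) R1)) hρ.le]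
    have g3 : γ * (7 / 8) ≤ (ν 1).re := le_trans (mul_le_mul_of_nonneg_left (by nlinarith) hγ.le) hre
    have g4 : (W : ℝ) / 2 ≤ (W * (ν 1).re - (ν S).re) / γ - W * 1 / 4 := by
      rw [le_sub_iff_add_le, le_div_iff₀ hγ]
      nlinarith [mul_le_mul_of_nonneg_left g3 (by linarith : (0 : ℝ) ≤ W)]
    have g5 := mul_le_mul_of_nonneg_left (div_le_div_of_nonneg_right g4
      (by positivity : 0 ≤ 2 * c ^ 2)) (by linarith : 0 ≤ γL)
    have g6 : W * 1 / (16 * c ^ 2) ≤ γL * (W * 1 / (16 * c ^ 2)) :=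
      le_mul_of_one_le_left (by positivity) hγL
    have g7 : W * γL * (1 - 3 / (16 * c ^ 2)) =
        γL * W - γL * (W / 2 / (2 * c ^ 2)) + γL * (W * 1 / (16 * c ^ 2)) := by field_simp; ring
    rw [g7]
    linarith

end

end Pool.Agent.MP_fe3998_an.UB
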