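import Mathlib.Analysis.SpecialFunctions.Log.Basic
import Pool.Agent.MP_fe3998_an.UB.Init

/-! The upper bound. -/

set_option autoImplicit false

namespace Pool.Agent.MP_fe3998_an.UB

theorem tw_mono (h : ℕ) {x y : ℕ} (hxy : x ≤ y) :
    (fun x : ℕ => 2 ^ x)^[h] x ≤ (fun x : ℕ => 2 ^ x)^[h] y :=
  Monotone.iterate (fun _ _ h => two_le' h) h hxy

theorem tw_le (d x : ℕ) : x + d ≤ (fun x : ℕ => 2 ^ x)^[d] x := by
  induction d with
  | zero => exact le_rfl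
  | succ d ih =>
    rw [Function.iterate_succ_apply']
    have := lt2 ((fun x : ℕ => 2 ^ x)^[d] x)
    omega

theorem nx_tw {C : ℕ} (hC : 8 ≤ C) (j : ℕ) :
    (nx C)^[j] 1 + C ≤ (fun x : ℕ => 2 ^ x)^[4 * j + C] 1 := by
  induction j with
  | zero => simpa using tw_le C 1
  | succ j ih =>
    rw [Function.iterate_succ_apply', show 4 * (j + 1) + C = 4 + (4 * j + C) by ring,
      Function.iterate_add_apply]
    exact (nx_le hC).trans (tw_mono 4 ih)

theorem upper (c : ℝ) (hc : 1 ≤ c) : ∃ C θ : ℝ, 1 ≤ C ∧ 0 < θ ∧ θ < 1 ∧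
    ∀ (H : Type*) [NormedAddCommGroup H] [InnerProductSpace ℂ H] [CompleteSpace H]
      (T : H →L[ℂ] H), (∀ n : ℕ, ‖T ^ n‖ ≤ c) → ∀ h N : ℕ, 2 ≤ N →
      (fun x : ℕ => 2 ^ x)^[h] 1 ≤ N → ∀ p : Polynomial ℂ, p.natDegree ≤ N →
      (∀ z : ℂ, ‖z‖ ≤ 1 → ‖p.eval z‖ ≤ 1) → ‖Polynomial.aeval T p‖ ≤ C * θ ^ h * Real.log N := by
  obtain ⟨C, hC⟩ := pow_unbounded_of_one_lt (2 ^ 39 * c ^ 6) (one_lt_two (α := ℝ))
  have hC8 : 8 ≤ C := by
    by_contra h
    have : (2 : ℝ) ^ C ≤ 2 ^ 8 := pow_le_pow_right₀ one_le_two (by omega)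
    nlinarith [one_le_pow₀ (n := 6) hc]
  have x0 : 0 < 1 / (8 * c ^ 2) := by positivity
  have x1 : 1 / (8 * c ^ 2) ≤ 1 / 8 := by
    rw [div_le_div_iff₀ (by positivity) (by norm_num)]; nlinarith
  have sc := fun (H : Type _) [NormedAddCommGroup H] [InnerProductSpace ℂ H] [CompleteSpace H]
    (T : H →L[ℂ] H) (hT : ∀ n : ℕ, ‖T ^ n‖ ≤ c) (Q : ℕ) [NeZero Q] => scales (Q := Q) hT hc hC.le
  generalize 1 / (8 * c ^ 2) = x at *
  have t0 : 0 < 1 - x / 4 := by linarith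
  have t1 : 1 - x / 4 ≤ 1 := by linarith
  have t4 : 1 - x ≤ (1 - x / 4) ^ 4 := by
    have := one_add_mul_le_pow (a := -(x / 4)) (by linarith) 4
    push_cast at this
    rw [← sub_eq_add_neg] at this
    linarith
  have tC : 0 < (1 - x / 4) ^ (C + 4) := by positivity
  refine ⟨156 * c ^ 2 * (2 + 9 * c) / (1 - x / 4) ^ (C + 4), 1 - x / 4, ?_, t0, by linarith,
    fun H _ _ _ T hT h N hN hh p hp h1 => ?_⟩
  · rw [le_div_iff₀ tC]
    nlinarith [pow_le_one₀ (n := C + 4) t0.le t1, one_le_pow₀ (n := 2) hc]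
  have k1 : 2 ^ Nat.log 2 N ≤ N := Nat.pow_log_le_self 2 (by omega)
  have k2 : N < 2 ^ (Nat.log 2 N + 1) := Nat.lt_pow_succ_log_self one_lt_two N
  have k3 : 1 ≤ Nat.log 2 N := Nat.log_pos one_lt_two hN
  generalize Nat.log 2 N = k at *
  obtain ⟨j, j1, j2⟩ : ∃ j, (nx C)^[j] 1 ≤ k ∧ h ≤ 4 * j + (C + 4) := by
    by_cases h0 : h ≤ C + 4
    · exact ⟨0, k3, by omega⟩
    refine ⟨(h - C - 1) / 4, ?_, by omega⟩
    obtain ⟨d, hd⟩ := Nat.exists_eq_add_of_le (by omega : 4 * ((h - C - 1) / 4) + C + 1 ≤ h)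
    have a1 := nx_tw hC8 ((h - C - 1) / 4)
    generalize (h - C - 1) / 4 = j at *
    rw [hd, show 4 * j + C + 1 + d = d + (4 * j + C) + 1 by ring, Function.iterate_succ_apply',
      Function.iterate_add_apply] at hh
    have a2 := tw_le d ((fun x : ℕ => 2 ^ x)^[4 * j + C] 1)
    have a3 := (Nat.pow_lt_pow_iff_right one_lt_two).1 (hh.trans_lt k2)
    omega
  set L := (nx C)^[j] 1 with hL
  obtain ⟨s1, s2, s3⟩ := sc H T hT (256 * 2 ^ ((k / L + 1) * L)) j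
  rw [← hL] at s1 s2 s3
  have d1 : k < (k / L + 1) * L := by rw [mul_comm]; exact Nat.lt_mul_div_succ k s1
  have d2 : (k / L + 1) * L ≤ 2 * k := by
    have := Nat.div_mul_le_self k L
    rw [add_mul]; omega
  have d3 := two_le' (by omega : k + 1 ≤ (k / L + 1) * L)
  have p0 : 0 ≤ 26 * c * (1 - x) ^ j := mul_nonneg (by linarith) (pow_nonneg (by linarith) _)
  refine (poly_le hT (by positivity) (by omega) (s3.mul (k / L + 1)) p hp h1).trans ?_
  have e1 : (((k / L + 1 : ℕ) : ℝ) * L) ≤ 2 * k := by exact_mod_cast d2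
  have e2 : (L : ℝ) ≤ k := by exact_mod_cast j1
  have e3 : (k : ℝ) ≤ 2 * Real.log N := by
    have a1 : (2 : ℝ) ^ k ≤ N := by exact_mod_cast k1
    have a2 := Real.log_le_log (by positivity) a1
    have a3 := Real.one_sub_inv_le_log_of_pos (by norm_num : (0 : ℝ) < 2)
    rw [Real.log_pow] at a2
    nlinarith [(Nat.cast_nonneg k : (0 : ℝ) ≤ k)]
  have e4 : (1 - x) ^ j ≤ (1 - x / 4) ^ h / (1 - x / 4) ^ (C + 4) := by
    rw [le_div_iff₀ tC]
    refine (mul_le_mul_of_nonneg_right (pow_le_pow_left₀ (by linarith) t4 j) tC.le).trans ?_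
    rw [← pow_mul, ← pow_add]
    exact pow_le_pow_of_le_one t0.le t1 j2
  have e5 := s2.trans (mul_le_mul_of_nonneg_left e2 p0)
  have e6 : ((k / L + 1 : ℕ) : ℝ) * (26 * c * (1 - x) ^ j * L) + 9 * c ≤
      (2 + 9 * c) * (26 * c * (1 - x) ^ j * k) := by
    nlinarith [mul_le_mul_of_nonneg_left e1 p0, mul_le_mul_of_nonneg_left e5 (by linarith : 0 ≤ c)]
  refine (mul_le_mul_of_nonneg_left (e6.trans (mul_le_mul_of_nonneg_left (mul_le_mul
    (mul_le_mul_of_nonneg_left e4 (by linarith)) e3 (by positivity) (by positivity))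
    (by linarith))) (by linarith)).trans (le_of_eq (by ring))

end Pool.Agent.MP_fe3998_an.UB
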